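import Mathlib
import Pool.Agent.H391R2.WrGrp

set_option autoImplicit false

namespace Pool.Agent.H391R2.T4

section gp

variable {Γ G : Type} [Group Γ] [Group G]

/-- The action on the wreath product induced by an action on the base group. -/
def wrAct (φ : Γ →* MulAut G) (n : ℕ) : Γ →* MulAut (Wr G n) where
  toFun ρ :=
    { toFun := fun x => ⟨fun i => φ ρ (x.left i), x.right⟩
      invFun := fun x => ⟨fun i => φ ρ⁻¹ (x.left i), x.right⟩
      left_inv := fun x => by
        apply SemidirectProduct.ext
        · funext i
          change φ ρ⁻¹ (φ ρ (x.left i)) = x.left i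
          rw [← MulAut.mul_apply, ← map_mul, inv_mul_cancel, map_one]
          rfl
        · rfl
      right_inv := fun x => by
        apply SemidirectProduct.ext
        · funext i
          change φ ρ (φ ρ⁻¹ (x.left i)) = x.left i
          rw [← MulAut.mul_apply, ← map_mul, mul_inv_cancel, map_one]
          rfl
        · rfl
      map_mul' := fun a b => by
        apply SemidirectProduct.ext
        · funext i
          change φ ρ ((a * b).left i) = _
          rw [wr_mul_left, map_mul, wr_mul_left]
        · rfl }
  map_one' := by
    ext x : 1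
    apply SemidirectProduct.ext
    · funext i
      change φ 1 (x.left i) = x.left i
      rw [map_one]
      rfl
    · rfl
  map_mul' ρ ρ' := by
    ext x : 1
    apply SemidirectProduct.ext
    · funext i
      change φ (ρ * ρ') (x.left i) = φ ρ (φ ρ' (x.left i))
      rw [map_mul]
      rfl
    · rfl

theorem wrAct_left (φ : Γ →* MulAut G) (n : ℕ) (ρ : Γ) (x : Wr G n) (i : Fin n) :
    (wrAct φ n ρ x).left i = φ ρ (x.left i) := rfl

theorem wrAct_right (φ : Γ →* MulAut G) (n : ℕ) (ρ : Γ) (x : Wr G n) :
    (wrAct φ n ρ x).right = x.right := rfl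

/-- The group of the embedding problem. -/
abbrev EG (φ : Γ →* MulAut G) (n : ℕ) : Type := SemidirectProduct (Wr G n) Γ (wrAct φ n)

theorem eg_mul_right (φ : Γ →* MulAut G) (n : ℕ) (a b : EG φ n) :
    (a * b).right = a.right * b.right := rfl

theorem eg_mul_left (φ : Γ →* MulAut G) (n : ℕ) (a b : EG φ n) :
    (a * b).left = a.left * wrAct φ n a.right b.left := rfl

/-- Two surjections with the same kernel. -/
theorem exists_equiv_of_ker {A B C : Type} [Group A] [Group B] [Group C] (f : A →* B)
    (g : A →* C) (hf : Function.Surjective f) (hg : Function.Surjective g)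
    (h : f.ker = g.ker) : ∃ e : B ≃* C, ∀ a, e (f a) = g a := by
  refine ⟨(QuotientGroup.quotientKerEquivOfSurjective f hf).symm.trans
    ((QuotientGroup.quotientMulEquivOfEq h).trans
    (QuotientGroup.quotientKerEquivOfSurjective g hg)), fun a => ?_⟩
  have h1 : (QuotientGroup.quotientKerEquivOfSurjective f hf).symm (f a) =
      (QuotientGroup.mk a : A ⧸ f.ker) := by
    rw [MulEquiv.symm_apply_eq]
    rfl
  rw [MulEquiv.trans_apply, h1]
  rfl

end gp

end Pool.Agent.H391R2.T4
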