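import Mathlib
import Pool.Agent.H391R2.WrSym
import Pool.Agent.H391R2.WrSol
import Pool.Agent.H391R2.WrPhi

namespace Pool.Agent.H391R2.T4

open MvPolynomial

set_option linter.unusedSectionVars false

/-- A polynomial whose symmetry group is exactly `G` acting by left translations. -/
class YData {k G : Type} [Field k] [Group G] (y : MvPolynomial G k) : Prop where
  inv : ∀ g : G, rename (Equiv.mulLeft g) y = y
  stab : ∀ π : Equiv.Perm G, rename π y = y → ∃ g : G, π = Equiv.mulLeft g

section yd

variable {k : Type} [Field k] {G : Type} [Group G] [Fintype G] (y : MvPolynomial G k)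

open Classical in
/-- The orbit of `y0`. -/
noncomputable def orb : Finset (MvPolynomial G k) :=
  Finset.univ.image fun π : Equiv.Perm G => rename π y

theorem mem_orb {q : MvPolynomial G k} :
    q ∈ orb y ↔ ∃ π : Equiv.Perm G, rename π y = q := by
  simp [orb]

theorem y_mem_orb : y ∈ orb y :=
  (mem_orb y).2 ⟨1, by rw [Equiv.Perm.coe_one]; exact rename_id_apply _⟩

theorem rename_mem_orb (π : Equiv.Perm G) {q : MvPolynomial G k} (hq : q ∈ orb y) :
    rename π q ∈ orb y := by
  obtain ⟨ρ, rfl⟩ := (mem_orb y).1 hq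
  rw [rename_rename]
  exact (mem_orb y).2 ⟨π * ρ, rfl⟩

theorem orb_image (π : Equiv.Perm G) [DecidableEq (MvPolynomial G k)] :
    (orb y).image (rename π) = orb y := by
  apply Finset.eq_of_subset_of_card_le
  · intro q hq
    obtain ⟨p, hp, rfl⟩ := Finset.mem_image.1 hq
    exact rename_mem_orb y π hp
  · rw [Finset.card_image_of_injective _ (rename_injective _ π.injective)]

open Polynomial in
theorem exists_psi : ∃ Ψ : Polynomial (MvPolynomial (Fin (Fintype.card G)) k),
    Ψ.Monic ∧ Ψ.natDegree = (orb y).card ∧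
    Ψ.map ((aeval fun i : Fin (Fintype.card G) => esymm G k (i + 1) :
      MvPolynomial (Fin (Fintype.card G)) k →ₐ[k] MvPolynomial G k) :
      MvPolynomial (Fin (Fintype.card G)) k →+* MvPolynomial G k) =
      ∏ q ∈ orb y, (Polynomial.X - Polynomial.C q) := by
  classical
  have hm : (∏ q ∈ orb y, (Polynomial.X - Polynomial.C q)).Monic :=
    Polynomial.monic_prod_of_monic _ _ fun q _ => Polynomial.monic_X_sub_C q
  have hdeg : (∏ q ∈ orb y, (Polynomial.X - Polynomial.C q)).natDegree = (orb y).card := by
    rw [Polynomial.natDegree_prod_of_monic _ _ fun q _ => Polynomial.monic_X_sub_C q]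
    simp
  have hsymm : ∀ n, ((∏ q ∈ orb y, (Polynomial.X - Polynomial.C q)).coeff n).IsSymmetric := by
    intro n π
    have h1 : (∏ q ∈ orb y, (Polynomial.X - Polynomial.C q)).map
        ((rename π : MvPolynomial G k →ₐ[k] MvPolynomial G k) :
          MvPolynomial G k →+* MvPolynomial G k) =
        ∏ q ∈ orb y, (Polynomial.X - Polynomial.C q) := by
      rw [Polynomial.map_prod]
      simp only [Polynomial.map_sub, Polynomial.map_X, Polynomial.map_C]
      nth_rewrite 2 [← orb_image y π]
      rw [Finset.prod_image fun a _ b _ h => rename_injective _ π.injective h]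
      rfl
    nth_rewrite 2 [← h1]
    rw [Polynomial.coeff_map]
    rfl
  have hlift : (∏ q ∈ orb y, (Polynomial.X - Polynomial.C q)) ∈ Polynomial.lifts
      ((aeval fun i : Fin (Fintype.card G) => esymm G k (i + 1) :
      MvPolynomial (Fin (Fintype.card G)) k →ₐ[k] MvPolynomial G k) :
      MvPolynomial (Fin (Fintype.card G)) k →+* MvPolynomial G k) := by
    rw [Polynomial.lifts_iff_coeff_lifts]
    intro n
    obtain ⟨p, hp⟩ := esymmAlgHom_surjective (σ := G) k (n := Fintype.card G) le_rfl
      ⟨_, (mem_symmetricSubalgebra _).2 (hsymm n)⟩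
    refine ⟨p, ?_⟩
    have h2 := congrArg Subtype.val hp
    rw [esymmAlgHom_apply] at h2
    exact h2
  obtain ⟨Ψ, h1, h2, h3⟩ := Polynomial.lifts_and_natDegree_eq_and_monic hlift hm
  exact ⟨Ψ, h3, h2.trans hdeg, h1⟩

theorem psi_map {Ψ : Polynomial (MvPolynomial (Fin (Fintype.card G)) k)}
    (hΨ : Ψ.map ((aeval fun i : Fin (Fintype.card G) => esymm G k (i + 1) :
      MvPolynomial (Fin (Fintype.card G)) k →ₐ[k] MvPolynomial G k) :
      MvPolynomial (Fin (Fintype.card G)) k →+* MvPolynomial G k) =
      ∏ q ∈ orb y, (Polynomial.X - Polynomial.C q)) {E : Type} [CommRing E] [Algebra k E]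
      (v : G → E) (c : Fin (Fintype.card G) → E) (hc : ∀ i : Fin (Fintype.card G),
        c i = aeval v (esymm G k (i + 1))) :
      Ψ.map ((aeval c : MvPolynomial (Fin (Fintype.card G)) k →ₐ[k] E) :
        MvPolynomial (Fin (Fintype.card G)) k →+* E) =
      ∏ q ∈ orb y, (Polynomial.X - Polynomial.C (aeval v q)) := by
  have h1 := congrArg (Polynomial.map ((aeval v : MvPolynomial G k →ₐ[k] E) :
    MvPolynomial G k →+* E)) hΨ
  rw [Polynomial.map_map, Polynomial.map_prod] at h1
  simp only [Polynomial.map_sub, Polynomial.map_X, Polynomial.map_C] at h1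
  rw [← RingHom.coe_coe (aeval v : MvPolynomial G k →ₐ[k] E)]
  rw [← h1]
  congr 1
  ext x
  · simp
  · simp [hc]

theorem aeval_mem_orb {E : Type} [CommRing E] [Algebra k E] (v : G → E) (π : Equiv.Perm G) :
    aeval v (rename π y) = aeval (v ∘ π) y := aeval_rename ..

theorem aeval_mulLeft [YData y] {E : Type} [CommRing E] [Algebra k E] (v : G → E) (g : G) :
    aeval (v ∘ Equiv.mulLeft g) y = aeval v y := by
  rw [← aeval_mem_orb, YData.inv (y := y)]

end yd

section family

variable {k : Type} [Field k] {G : Type} [Group G] [Fintype G] (y : MvPolynomial G k)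

/-- Target functions. -/
noncomputable def tv : Option (Fin (Fintype.card G)) → MvPolynomial G k
  | none => y
  | some i => esymm G k (i + 1)

theorem tv_mulLeft [YData y] {E : Type} [CommRing E] [Algebra k E] (v : G → E) (g : G)
    (i : Option (Fin (Fintype.card G))) :
    aeval (v ∘ Equiv.mulLeft g) (tv y i) = aeval v (tv y i) := by
  cases i with
  | none => exact aeval_mulLeft y v g
  | some i => exact aeval_esymm_comp k G v _ _

variable (base : Option (Fin (Fintype.card G)) → Polynomial k) (w : Polynomial k)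

/-- Solutions. -/
def Sol {E : Type} [CommRing E] [Algebra k E]
    (θ : Option (Fin (Fintype.card G)) ⊕ Option (Fin (Fintype.card G)) → E) (s : E)
    (v : G → E) : Prop :=
  Polynomial.aeval s w ≠ 0 ∧ ∀ i, aeval v (tv y i) = (fam G base w θ i).eval s

theorem Sol_map {E E' : Type} [CommRing E] [Algebra k E] [CommRing E'] [Algebra k E']
    (f : E →ₐ[k] E') (hf : Function.Injective f)
    (θ : Option (Fin (Fintype.card G)) ⊕ Option (Fin (Fintype.card G)) → E) (s : E)
    (v : G → E) : Sol y base w (f ∘ θ) (f s) (f ∘ v) ↔ Sol y base w θ s v := by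
  unfold Sol
  have h1 : ∀ i, (fam G base w (f ∘ θ) i).eval (f s) = f ((fam G base w θ i).eval s) := by
    intro i
    rw [← fam_map]
    exact Polynomial.eval_map_apply ..
  have h2 : ∀ i, aeval (f ∘ v) (tv y i) = f (aeval v (tv y i)) := by
    intro i
    rw [comp_aeval_apply]
    rfl
  simp only [h1, h2, hf.eq_iff]
  rw [Polynomial.aeval_algHom_apply, ne_eq, ne_eq, map_eq_zero_iff f hf]

theorem Sol_mulLeft [YData y] {E : Type} [CommRing E] [Algebra k E]
    (θ : Option (Fin (Fintype.card G)) ⊕ Option (Fin (Fintype.card G)) → E) (s : E)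
    (v : G → E) (g : G) (h : Sol y base w θ s v) : Sol y base w θ s (v ∘ Equiv.mulLeft g) :=
  ⟨h.1, fun i => by rw [tv_mulLeft]; exact h.2 i⟩

end family

section solve

variable {k : Type} [Field k] {G : Type} [Group G] [Fintype G] (y : MvPolynomial G k)
variable (base : Option (Fin (Fintype.card G)) → Polynomial k) (w : Polynomial k)

/-- The quotient used to solve for the parameters. -/
noncomputable def qv {E : Type} [Field E] [Algebra k E] (s : E) (v : G → E)
    (i : Option (Fin (Fintype.card G))) : E :=
  (aeval v (tv y i) - Polynomial.aeval s (base i)) / Polynomial.aeval s w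

/-- Parameters as functions of two solutions. -/
noncomputable def rr {E : Type} [Field E] [Algebra k E] (X : Option G ⊕ Option G → E) :
    Option (Fin (Fintype.card G)) ⊕ Option (Fin (Fintype.card G)) → E :=
  Sum.elim
    (fun i => qv y base w (X (Sum.inl none)) (fun g => X (Sum.inl (some g))) i -
      (qv y base w (X (Sum.inl none)) (fun g => X (Sum.inl (some g))) i -
        qv y base w (X (Sum.inr none)) (fun g => X (Sum.inr (some g))) i) /
        (X (Sum.inl none) - X (Sum.inr none)) * X (Sum.inl none))
    (fun i => (qv y base w (X (Sum.inl none)) (fun g => X (Sum.inl (some g))) i -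
        qv y base w (X (Sum.inr none)) (fun g => X (Sum.inr (some g))) i) /
        (X (Sum.inl none) - X (Sum.inr none)))

theorem qv_map {E E' : Type} [Field E] [Algebra k E] [Field E'] [Algebra k E']
    (f : E →ₐ[k] E') (s : E) (v : G → E) (i : Option (Fin (Fintype.card G))) :
    f (qv y base w s v i) = qv y base w (f s) (fun g => f (v g)) i := by
  unfold qv
  rw [map_div₀, map_sub, comp_aeval_apply, Polynomial.aeval_algHom_apply,
    Polynomial.aeval_algHom_apply]

theorem rr_map {E E' : Type} [Field E] [Algebra k E] [Field E'] [Algebra k E']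
    (f : E →ₐ[k] E') (X : Option G ⊕ Option G → E)
    (j : Option (Fin (Fintype.card G)) ⊕ Option (Fin (Fintype.card G))) :
    f (rr y base w X j) = rr y base w (fun i => f (X i)) j := by
  cases j with
  | inl i => simp only [rr, Sum.elim_inl, map_sub, map_mul, map_div₀, qv_map]
  | inr i => simp only [rr, Sum.elim_inr, map_sub, map_div₀, qv_map]

/-- Two solutions as one vector. -/
def pr {E : Type} (s : E) (v : G → E) (s' : E) (v' : G → E) : Option G ⊕ Option G → E :=
  Sum.elim (fun o => o.elim s v) (fun o => o.elim s' v')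

theorem rr_eq {E : Type} [Field E] [Algebra k E]
    (θ : Option (Fin (Fintype.card G)) ⊕ Option (Fin (Fintype.card G)) → E) (s : E)
    (v : G → E) (s' : E) (v' : G → E) (h : Sol y base w θ s v) (h' : Sol y base w θ s' v')
    (hne : s ≠ s') : rr y base w (pr s v s' v') = θ := by
  have hq : ∀ i, qv y base w s v i = θ (Sum.inl i) + θ (Sum.inr i) * s := by
    intro i
    unfold qv
    rw [h.2 i, fam_eval, add_sub_cancel_left, mul_div_cancel_left₀ _ h.1]
  have hq' : ∀ i, qv y base w s' v' i = θ (Sum.inl i) + θ (Sum.inr i) * s' := by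
    intro i
    unfold qv
    rw [h'.2 i, fam_eval, add_sub_cancel_left, mul_div_cancel_left₀ _ h'.1]
  have hb : ∀ i, (qv y base w s v i - qv y base w s' v' i) / (s - s') = θ (Sum.inr i) := by
    intro i
    rw [hq, hq', div_eq_iff (sub_ne_zero.2 hne)]
    ring
  funext j
  cases j with
  | inl i =>
    change qv y base w s v i - (qv y base w s v i - qv y base w s' v' i) / (s - s') * s = _
    rw [hb, hq]; ring
  | inr i => exact hb i

theorem pair_indep {E : Type} [Field E] [Algebra k E]
    (θ : Option (Fin (Fintype.card G)) ⊕ Option (Fin (Fintype.card G)) → E)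
    (hθ : AlgebraicIndependent k θ) (s : E)
    (v : G → E) (s' : E) (v' : G → E) (h : Sol y base w θ s v) (h' : Sol y base w θ s' v')
    (hne : s ≠ s') : AlgebraicIndependent k (pr s v s' v') := by
  refine indep_of_mem ?_ θ hθ _ fun j => ?_
  · simp [Nat.card_eq_fintype_card]
  · set X := pr s v s' v' with hX
    let X' : Option G ⊕ Option G → IntermediateField.adjoin k (Set.range X) :=
      fun i => ⟨X i, IntermediateField.subset_adjoin _ _ ⟨i, rfl⟩⟩
    have h1 := rr_map y base w (IntermediateField.adjoin k (Set.range X)).val X' j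
    have h2 : rr y base w (fun i => (IntermediateField.adjoin k (Set.range X)).val (X' i)) j = θ j :=
      congrFun (rr_eq y base w θ s v s' v' h h' hne) j
    rw [h2] at h1
    rw [← h1]
    exact (rr y base w X' j).2

theorem pair_aut {F N : Type} [Field F] [Field N] [Algebra k F] [Algebra k N]
    [Algebra (MvPolynomial
      (Option (Fin (Fintype.card G)) ⊕ Option (Fin (Fintype.card G))) k) F]
    [IsScalarTower k (MvPolynomial
      (Option (Fin (Fintype.card G)) ⊕ Option (Fin (Fintype.card G))) k) F]
    [IsFractionRing (MvPolynomial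
      (Option (Fin (Fintype.card G)) ⊕ Option (Fin (Fintype.card G))) k) F]
    [Algebra F N] [IsScalarTower k F N] [Normal F N]
    (θ : Option (Fin (Fintype.card G)) ⊕ Option (Fin (Fintype.card G)) → N)
    (hθ : AlgebraicIndependent k θ)
    (hθF : ∀ i, θ i = algebraMap F N (algebraMap (MvPolynomial
      (Option (Fin (Fintype.card G)) ⊕ Option (Fin (Fintype.card G))) k) F (MvPolynomial.X i)))
    (s : N) (v : G → N) (s' : N) (v' : G → N) (h : Sol y base w θ s v)
    (h' : Sol y base w θ s' v') (hne : s ≠ s')
    (t : N) (u : G → N) (t' : N) (u' : G → N) (k1 : Sol y base w θ t u)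
    (k1' : Sol y base w θ t' u') (kne : t ≠ t') :
    ∃ γ : N ≃ₐ[F] N, γ s = t ∧ (∀ g, γ (v g) = u g) ∧ γ s' = t' ∧ (∀ g, γ (v' g) = u' g) := by
  have hX := pair_indep y base w θ hθ s v s' v' h h' hne
  have hY := pair_indep y base w θ hθ t u t' u' k1 k1' kne
  have key : ∀ (Z : Option G ⊕ Option G → N) (hZ : AlgebraicIndependent k Z),
      rr y base w Z = θ → ∀ i, lft hZ (rr y base w (fun j => algebraMap (MvPolynomial
        (Option G ⊕ Option G) k) (FractionRing (MvPolynomial (Option G ⊕ Option G) k))
        (MvPolynomial.X j)) i) = algebraMap F N (algebraMap (MvPolynomial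
      (Option (Fin (Fintype.card G)) ⊕ Option (Fin (Fintype.card G))) k) F
        (MvPolynomial.X i)) := by
    intro Z hZ hr i
    rw [rr_map]
    have h1 : (fun j => lft hZ (algebraMap (MvPolynomial
        (Option G ⊕ Option G) k) (FractionRing (MvPolynomial (Option G ⊕ Option G) k))
        (MvPolynomial.X j))) = Z := funext fun j => lft_X hZ j
    rw [h1, hr, hθF]
  obtain ⟨γ, hγ⟩ := exists_aut (F := F) (N := N) _ _ hX hY _
    (key _ hX (rr_eq y base w θ s v s' v' h h' hne))
    (key _ hY (rr_eq y base w θ t u t' u' k1 k1' kne))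
  exact ⟨γ, hγ (Sum.inl none), fun g => hγ (Sum.inl (some g)), hγ (Sum.inr none),
    fun g => hγ (Sum.inr (some g))⟩

theorem indep_v {E : Type} [Field E] [Algebra k E]
    (θ : Option (Fin (Fintype.card G)) ⊕ Option (Fin (Fintype.card G)) → E)
    (hθ : AlgebraicIndependent k θ) (s : E)
    (v : G → E) (s' : E) (v' : G → E) (h : Sol y base w θ s v) (h' : Sol y base w θ s' v')
    (hne : s ≠ s') : AlgebraicIndependent k v := by
  have h1 := pair_indep y base w θ hθ s v s' v' h h' hne
  exact h1.comp (fun g : G => Sum.inl (some g)) (fun a b hab => by simpa using hab)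

theorem unique_v [YData y] {E : Type} [Field E] [Algebra k E]
    (θ : Option (Fin (Fintype.card G)) ⊕ Option (Fin (Fintype.card G)) → E) (s : E)
    (v u : G → E) (hv : AlgebraicIndependent k v) (h : Sol y base w θ s v)
    (h' : Sol y base w θ s u) : ∃ g : G, u = v ∘ Equiv.mulLeft g := by
  obtain ⟨π, rfl⟩ := exists_perm_of_esymm (k := k) v u (fun i => (h.2 (some i)).trans
    (h'.2 (some i)).symm)
  have h1 : aeval v (rename π y) = aeval v y := by
    rw [aeval_mem_orb]
    exact (h'.2 none).trans (h.2 none).symm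
  obtain ⟨g, rfl⟩ := YData.stab (y := y) π (algebraicIndependent_iff_injective_aeval.1 hv h1)
  exact ⟨g, rfl⟩

end solve

end Pool.Agent.H391R2.T4
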