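import Mathlib
import Pool.Agent.H391R2.T4.Sol
import Pool.Agent.H391R2.NtB

namespace Pool.Agent.H391R2.T4

open MvPolynomial

set_option linter.unusedSectionVars false

section phi

variable {k : Type} [Field k] {G : Type} [Group G] [Fintype G] (y : MvPolynomial G k)
variable (base : Option (Fin (Fintype.card G)) → Polynomial k) (w : Polynomial k)
variable (Ψ : Polynomial (MvPolynomial (Fin (Fintype.card G)) k))

theorem Phi_eval_prod (hΨ : Ψ.map ((aeval fun i : Fin (Fintype.card G) => esymm G k (i + 1) :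
      MvPolynomial (Fin (Fintype.card G)) k →ₐ[k] MvPolynomial G k) :
      MvPolynomial (Fin (Fintype.card G)) k →+* MvPolynomial G k) =
      ∏ q ∈ orb y, (Polynomial.X - Polynomial.C q)) {E : Type} [CommRing E] [Algebra k E]
    (θ : Option (Fin (Fintype.card G)) ⊕ Option (Fin (Fintype.card G)) → E) (s : E)
    (v : G → E) (hv : ∀ i : Fin (Fintype.card G),
      aeval v (esymm G k (i + 1)) = (fam G base w θ (some i)).eval s) :
    (Phi base w Ψ θ).eval s = ∏ q ∈ orb y, ((fam G base w θ none).eval s - aeval v q) := by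
  rw [Phi_eval, psi_map y hΨ v _ (fun i => (hv i).symm), Polynomial.eval_prod]
  simp only [Polynomial.eval_sub, Polynomial.eval_X, Polynomial.eval_C]

theorem Sol_root (hΨ : Ψ.map ((aeval fun i : Fin (Fintype.card G) => esymm G k (i + 1) :
      MvPolynomial (Fin (Fintype.card G)) k →ₐ[k] MvPolynomial G k) :
      MvPolynomial (Fin (Fintype.card G)) k →+* MvPolynomial G k) =
      ∏ q ∈ orb y, (Polynomial.X - Polynomial.C q)) {E : Type} [CommRing E] [Algebra k E]
    (θ : Option (Fin (Fintype.card G)) ⊕ Option (Fin (Fintype.card G)) → E) (s : E)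
    (v : G → E) (h : Sol y base w θ s v) : (Phi base w Ψ θ).eval s = 0 := by
  rw [Phi_eval_prod y base w Ψ hΨ θ s v (fun i => h.2 (some i))]
  apply Finset.prod_eq_zero (y_mem_orb y)
  rw [sub_eq_zero]
  exact (h.2 none).symm

theorem exists_Sol (hΨ : Ψ.map ((aeval fun i : Fin (Fintype.card G) => esymm G k (i + 1) :
      MvPolynomial (Fin (Fintype.card G)) k →ₐ[k] MvPolynomial G k) :
      MvPolynomial (Fin (Fintype.card G)) k →+* MvPolynomial G k) =
      ∏ q ∈ orb y, (Polynomial.X - Polynomial.C q)) {E : Type} [Field E] [Algebra k E]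
    [IsAlgClosed E]
    (θ : Option (Fin (Fintype.card G)) ⊕ Option (Fin (Fintype.card G)) → E) (s : E)
    (hw : Polynomial.aeval s w ≠ 0) (h : (Phi base w Ψ θ).eval s = 0) :
    ∃ v : G → E, Sol y base w θ s v := by
  obtain ⟨v₀, hv₀⟩ := exists_roots (k := k) (G := G)
    (fun i => (fam G base w θ (some i)).eval s)
  rw [Phi_eval_prod y base w Ψ hΨ θ s v₀ hv₀, Finset.prod_eq_zero_iff] at h
  obtain ⟨q, hq, h0⟩ := h
  obtain ⟨π, rfl⟩ := (mem_orb y).1 hq
  refine ⟨v₀ ∘ π, hw, fun i => ?_⟩
  cases i with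
  | none =>
    change aeval (v₀ ∘ π) y = _
    rw [← aeval_mem_orb]
    exact (sub_eq_zero.1 h0).symm
  | some i =>
    change aeval (v₀ ∘ π) (esymm G k (i + 1)) = _
    rw [aeval_esymm_comp]
    exact hv₀ i

end phi

section tuple

variable {k : Type} [Field k] {G : Type} [Group G] [Fintype G] (y : MvPolynomial G k)

/-- Solutions for a tuple. -/
def SolP {E : Type} [CommRing E] [Algebra k E]
    (P : Option (Fin (Fintype.card G)) → Polynomial E) (s : E) (v : G → E) : Prop :=
  ∀ i, aeval v (tv y i) = (P i).eval s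

theorem SolP_mulLeft [YData y] {E : Type} [CommRing E] [Algebra k E]
    (P : Option (Fin (Fintype.card G)) → Polynomial E) (s : E) (v : G → E) (g : G)
    (h : SolP y P s v) : SolP y P s (v ∘ Equiv.mulLeft g) :=
  fun i => by rw [tv_mulLeft]; exact h i

theorem SolP_map {E E' : Type} [CommRing E] [Algebra k E] [CommRing E'] [Algebra k E']
    (f : E →ₐ[k] E') (P : Option (Fin (Fintype.card G)) → Polynomial E) (s : E) (v : G → E)
    (h : SolP y P s v) : SolP y (fun i => (P i).map (f : E →+* E')) (f s) (f ∘ v) := by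
  intro i
  have h1 := comp_aeval_apply (f := v) (φ := f) (tv y i)
  have h2 : (fun g => f (v g)) = f ∘ v := rfl
  rw [h2] at h1
  rw [← h1, h i]
  exact (Polynomial.eval_map_apply (f := (f : E →+* E')) ..).symm

theorem SolP_of_map {E E' : Type} [CommRing E] [Algebra k E] [CommRing E'] [Algebra k E']
    (f : E →ₐ[k] E') (hf : Function.Injective f)
    (P : Option (Fin (Fintype.card G)) → Polynomial E) (s : E) (v : G → E)
    (h : SolP y (fun i => (P i).map (f : E →+* E')) (f s) (f ∘ v)) : SolP y P s v := by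
  intro i
  apply hf
  have h1 := comp_aeval_apply (f := v) (φ := f) (tv y i)
  have h2 : (fun g => f (v g)) = f ∘ v := rfl
  rw [h2] at h1
  rw [h1, h i]
  exact Polynomial.eval_map_apply (f := (f : E →+* E')) ..

theorem PhiP_eval_prod (Ψ : Polynomial (MvPolynomial (Fin (Fintype.card G)) k))
    (hΨ : Ψ.map ((aeval fun i : Fin (Fintype.card G) => esymm G k (i + 1) :
      MvPolynomial (Fin (Fintype.card G)) k →ₐ[k] MvPolynomial G k) :
      MvPolynomial (Fin (Fintype.card G)) k →+* MvPolynomial G k) =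
      ∏ q ∈ orb y, (Polynomial.X - Polynomial.C q)) {E : Type} [CommRing E] [Algebra k E]
    (P : Option (Fin (Fintype.card G)) → Polynomial E) (s : E)
    (v : G → E) (hv : ∀ i : Fin (Fintype.card G),
      aeval v (esymm G k (i + 1)) = (P (some i)).eval s) :
    (PhiP Ψ P).eval s = ∏ q ∈ orb y, ((P none).eval s - aeval v q) := by
  rw [PhiP_eval, psi_map y hΨ v _ (fun i => (hv i).symm), Polynomial.eval_prod]
  simp only [Polynomial.eval_sub, Polynomial.eval_X, Polynomial.eval_C]

theorem SolP_root (Ψ : Polynomial (MvPolynomial (Fin (Fintype.card G)) k))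
    (hΨ : Ψ.map ((aeval fun i : Fin (Fintype.card G) => esymm G k (i + 1) :
      MvPolynomial (Fin (Fintype.card G)) k →ₐ[k] MvPolynomial G k) :
      MvPolynomial (Fin (Fintype.card G)) k →+* MvPolynomial G k) =
      ∏ q ∈ orb y, (Polynomial.X - Polynomial.C q)) {E : Type} [CommRing E] [Algebra k E]
    (P : Option (Fin (Fintype.card G)) → Polynomial E) (s : E)
    (v : G → E) (h : SolP y P s v) : (PhiP Ψ P).eval s = 0 := by
  rw [PhiP_eval_prod y Ψ hΨ P s v (fun i => h (some i))]
  apply Finset.prod_eq_zero (y_mem_orb y)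
  rw [sub_eq_zero]
  exact (h none).symm

theorem exists_SolP (Ψ : Polynomial (MvPolynomial (Fin (Fintype.card G)) k))
    (hΨ : Ψ.map ((aeval fun i : Fin (Fintype.card G) => esymm G k (i + 1) :
      MvPolynomial (Fin (Fintype.card G)) k →ₐ[k] MvPolynomial G k) :
      MvPolynomial (Fin (Fintype.card G)) k →+* MvPolynomial G k) =
      ∏ q ∈ orb y, (Polynomial.X - Polynomial.C q)) {E : Type} [Field E] [Algebra k E]
    [IsAlgClosed E]
    (P : Option (Fin (Fintype.card G)) → Polynomial E) (s : E)
    (h : (PhiP Ψ P).eval s = 0) : ∃ v : G → E, SolP y P s v := by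
  obtain ⟨v₀, hv₀⟩ := exists_roots (k := k) (G := G) (fun i => (P (some i)).eval s)
  rw [PhiP_eval_prod y Ψ hΨ P s v₀ hv₀, Finset.prod_eq_zero_iff] at h
  obtain ⟨q, hq, h0⟩ := h
  obtain ⟨π, rfl⟩ := (mem_orb y).1 hq
  refine ⟨v₀ ∘ π, fun i => ?_⟩
  cases i with
  | none =>
    change aeval (v₀ ∘ π) y = _
    rw [← aeval_mem_orb]
    exact (sub_eq_zero.1 h0).symm
  | some i =>
    change aeval (v₀ ∘ π) (esymm G k (i + 1)) = _
    rw [aeval_esymm_comp]
    exact hv₀ i

/-- Solution coordinates are roots of a monic polynomial. -/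
theorem SolP_Pc {E : Type} [CommRing E] [Algebra k E]
    (P : Option (Fin (Fintype.card G)) → Polynomial E) (s : E) (v : G → E) (h : SolP y P s v)
    (g : G) : (Pc fun i : Fin (Fintype.card G) => (P (some i)).eval s).eval (v g) = 0 := by
  have h1 := prod_eq_Pc (k := k) v
  have h2 : (fun i' : Fin (Fintype.card G) => aeval v (esymm G k (i' + 1))) =
      fun i' => (P (some i')).eval s := funext fun i' => h (some i')
  rw [h2] at h1
  rw [← h1, Polynomial.eval_prod]
  exact Finset.prod_eq_zero (Finset.mem_univ g) (by simp)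

end tuple

end Pool.Agent.H391R2.T4
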