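import Mathlib
import Pool.Agent.H391R2.T4.Cfg

set_option autoImplicit false

namespace Pool.Agent.H391R2.T4

open MvPolynomial

set_option linter.unusedSectionVars false

section dft

variable {k : Type} [Field k] [CharZero k] {G : Type} [Group G] [Fintype G]

theorem sum_shift {M : Type} [AddCommGroup M] (f : ℕ → M) (n : ℕ) (h : f n = f 0) :
    ∑ a ∈ Finset.range n, f (a + 1) = ∑ a ∈ Finset.range n, f a := by
  have h1 := Finset.sum_range_succ f n
  have h2 := Finset.sum_range_succ' f n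
  rw [h1, h] at h2
  exact (add_right_cancel h2).symm

/-- Fourier coefficients of `l` along the cyclic group generated by `h`. -/
noncomputable def cf (l : G → k) (h : G) (ζ : k) (e : ℕ) (b : ℕ) (x : G) : k :=
  (e : k)⁻¹ * ∑ a ∈ Finset.range e, (ζ⁻¹) ^ (a * b) * l (h ^ a * x)

/-- The twisted vector as a polynomial. -/
noncomputable def Mv (l : G → k) (h : G) (ζ : k) (e : ℕ) (x : G) : Polynomial k :=
  ∑ b ∈ Finset.range e, Polynomial.C (cf l h ζ e b x) * Polynomial.X ^ b

theorem cf_mul (l : G → k) (h : G) (ζ : k) (e : ℕ) (he : h ^ e = 1) (hζ : ζ ^ e = 1) (hζ0 : ζ ≠ 0)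
    (b : ℕ) (x : G) : cf l h ζ e b (h * x) = ζ ^ b * cf l h ζ e b x := by
  unfold cf
  have h1 := sum_shift (fun a => (ζ⁻¹) ^ (a * b) * l (h ^ a * x)) e (by
    simp only [he, pow_zero, one_mul, zero_mul]
    rw [pow_mul, inv_pow, hζ, inv_one, one_pow, one_mul])
  rw [← h1, mul_left_comm]
  congr 1
  rw [Finset.mul_sum]
  refine Finset.sum_congr rfl fun a _ => ?_
  have h2 : (ζ⁻¹ : k) ^ ((a + 1) * b) = (ζ⁻¹) ^ (a * b) * (ζ⁻¹) ^ b := by
    rw [add_mul, one_mul, pow_add]
  have h3 : h ^ (a + 1) * x = h ^ a * (h * x) := by rw [pow_succ, mul_assoc]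
  rw [h2, h3]
  have h4 : ζ ^ b * (ζ⁻¹) ^ b = 1 := by
    rw [← mul_pow, mul_inv_cancel₀ hζ0, one_pow]
  linear_combination (-(ζ⁻¹ ^ (a * b) * l (h ^ a * (h * x)))) * h4

theorem sum_cf (l : G → k) (h : G) (ζ : k) (e : ℕ) (he0 : 0 < e) (hζ : IsPrimitiveRoot ζ e) (x : G) :
    ∑ b ∈ Finset.range e, cf l h ζ e b x = l x := by
  unfold cf
  rw [← Finset.mul_sum, Finset.sum_comm]
  have he : (e : k) ≠ 0 := Nat.cast_ne_zero.2 he0.ne'
  rw [inv_mul_eq_iff_eq_mul₀ he]
  have hζ' : IsPrimitiveRoot (ζ⁻¹) e := hζ.inv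
  rw [Finset.sum_eq_single 0]
  · simp
  · intro a ha ha0
    have h1 : ∑ b ∈ Finset.range e, (ζ⁻¹ ^ a) ^ b = 0 := by
      have h2 := geom_sum_mul (ζ⁻¹ ^ a) e
      rw [← pow_mul, mul_comm a e, pow_mul, hζ'.pow_eq_one, one_pow, sub_self] at h2
      refine (mul_eq_zero.1 h2).resolve_right ?_
      exact sub_ne_zero.2 <| hζ'.pow_ne_one_of_pos_of_lt ha0 (Finset.mem_range.1 ha)
    rw [← Finset.sum_mul]
    simp only [pow_mul]
    rw [h1, zero_mul]
  · intro h
    exact absurd (Finset.mem_range.2 he0) h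

theorem Mv_eval_one (l : G → k) (h : G) (ζ : k) (e : ℕ) (he0 : 0 < e) (hζ : IsPrimitiveRoot ζ e)
    (x : G) : (Mv l h ζ e x).eval 1 = l x := by
  unfold Mv
  rw [Polynomial.eval_finsetSum]
  simp only [Polynomial.eval_mul, Polynomial.eval_C, Polynomial.eval_pow, Polynomial.eval_X,
    one_pow, mul_one]
  exact sum_cf l h ζ e he0 hζ x

theorem Mv_twist (l : G → k) (h : G) (ζ : k) (e : ℕ) (he : h ^ e = 1) (hζ : ζ ^ e = 1)
    (hζ0 : ζ ≠ 0) (x : G) {A : Type} [CommRing A] [Algebra k A] (Y : A) :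
    Polynomial.aeval (algebraMap k A ζ * Y) (Mv l h ζ e x) =
      Polynomial.aeval Y (Mv l h ζ e (h * x)) := by
  unfold Mv
  simp only [map_sum, map_mul, Polynomial.aeval_C, Polynomial.aeval_X, map_pow]
  refine Finset.sum_congr rfl fun b _ => ?_
  rw [cf_mul l h ζ e he hζ hζ0, map_mul, map_pow]
  ring

variable (y : MvPolynomial G k)

/-- The correction values as polynomials. -/
noncomputable def kp (l : G → k) (h : G) (ζ : k) (e : ℕ) (i : Option (Fin (Fintype.card G))) :
    Polynomial k :=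
  aeval (Mv l h ζ e) (tv y i) - Polynomial.C (aeval l (tv y i))

theorem kp_eval_one (l : G → k) (h : G) (ζ : k) (e : ℕ) (he0 : 0 < e)
    (hζ : IsPrimitiveRoot ζ e) (i : Option (Fin (Fintype.card G))) :
    (kp y l h ζ e i).eval 1 = 0 := by
  unfold kp
  rw [Polynomial.eval_sub, Polynomial.eval_C, sub_eq_zero]
  have h1 := comp_aeval_apply (f := Mv l h ζ e) (φ := Polynomial.aeval (1 : k)) (tv y i)
  simp only [Polynomial.coe_aeval_eq_eval] at h1
  rw [h1]
  congr 2
  funext x
  exact Mv_eval_one l h ζ e he0 hζ x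

theorem aeval_kp (l : G → k) (h : G) (ζ : k) (e : ℕ) (i : Option (Fin (Fintype.card G)))
    {A : Type} [CommRing A] [Algebra k A] (Y : A) :
    Polynomial.aeval Y (kp y l h ζ e i) = aeval (fun x => Polynomial.aeval Y (Mv l h ζ e x))
      (tv y i) - algebraMap k A (aeval l (tv y i)) := by
  unfold kp
  rw [map_sub, Polynomial.aeval_C, comp_aeval_apply]

theorem kp_twist [YData y] (l : G → k) (h : G) (ζ : k) (e : ℕ) (he : h ^ e = 1) (hζ : ζ ^ e = 1)
    (hζ0 : ζ ≠ 0) (i : Option (Fin (Fintype.card G))) {A : Type} [CommRing A] [Algebra k A]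
    (Y : A) :
    Polynomial.aeval (algebraMap k A ζ * Y) (kp y l h ζ e i) =
      Polynomial.aeval Y (kp y l h ζ e i) := by
  rw [aeval_kp, aeval_kp]
  congr 1
  have h1 : (fun x => Polynomial.aeval (algebraMap k A ζ * Y) (Mv l h ζ e x)) =
      (fun x => Polynomial.aeval Y (Mv l h ζ e x)) ∘ Equiv.mulLeft h := by
    funext x
    exact Mv_twist l h ζ e he hζ hζ0 x Y
  rw [h1, tv_mulLeft]

/-- Invariant polynomials are polynomials in `Y ^ e`. -/
theorem mem_of_twist (ζ : k) (e : ℕ) (hζ : IsPrimitiveRoot ζ e) (p : Polynomial k)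
    (hp : Polynomial.aeval (algebraMap k (Polynomial k) ζ * Polynomial.X) p = p)
    {A : Type} [Field A] [Algebra k A] (Y : A) (S : IntermediateField k A) (hS : Y ^ e ∈ S) :
    Polynomial.aeval Y p ∈ S := by
  have h1 : ∀ b, p.coeff b ≠ 0 → e ∣ b := by
    intro b hb
    have h2 : (Polynomial.aeval (algebraMap k (Polynomial k) ζ * Polynomial.X) p).coeff b =
        ζ ^ b * p.coeff b := by
      rw [Polynomial.aeval_eq_sum_range, Polynomial.finsetSum_coeff]
      have h3 : ∀ i ∈ Finset.range (p.natDegree + 1),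
          (p.coeff i • (algebraMap k (Polynomial k) ζ * Polynomial.X) ^ i).coeff b =
          if i = b then ζ ^ b * p.coeff b else 0 := by
        intro i _
        rw [mul_pow, ← map_pow, Polynomial.algebraMap_apply, Algebra.algebraMap_self_apply,
          Polynomial.coeff_smul, Polynomial.coeff_C_mul, Polynomial.coeff_X_pow]
        by_cases h : i = b
        · subst h
          simp [mul_comm]
        · rw [if_neg h, if_neg (fun h' => h h'.symm)]
          simp
      rw [Finset.sum_congr rfl h3]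
      simp only [Finset.sum_ite_eq', Finset.mem_range]
      split_ifs with h4
      · rfl
      · rw [Polynomial.coeff_eq_zero_of_natDegree_lt (by omega), mul_zero]
    rw [hp] at h2
    have h3 : ζ ^ b = 1 := by
      have h4 : (ζ ^ b - 1) * p.coeff b = 0 := by linear_combination -h2
      exact sub_eq_zero.1 ((mul_eq_zero.1 h4).resolve_right hb)
    exact hζ.dvd_of_pow_eq_one b h3
  rw [Polynomial.aeval_eq_sum_range]
  refine S.sum_mem fun b _ => ?_
  by_cases hb : p.coeff b = 0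
  · rw [hb, zero_smul]
    exact S.zero_mem
  · obtain ⟨c, rfl⟩ := h1 b hb
    rw [pow_mul]
    exact S.smul_mem (pow_mem hS c)

end dft

end Pool.Agent.H391R2.T4
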