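import Mathlib
import Pool.Agent.H391R2.T4.Fam

set_option autoImplicit false

namespace Pool.Agent.H391R2.T4

open PowerSeries

section lau

theorem tau_transcendental (κ : Type) [Field κ] : Transcendental κ (X : κ⟦X⟧) := by
  rw [transcendental_iff]
  intro p hp
  have h1 : (p : κ⟦X⟧) = Polynomial.aeval (X : κ⟦X⟧) p := by
    have h2 : (Polynomial.coeToPowerSeries.algHom (R := κ) κ) = Polynomial.aeval (X : κ⟦X⟧) := by
      apply Polynomial.algHom_ext
      simp
    rw [← h2]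
    simp [Polynomial.coeToPowerSeries.algHom_apply]
  rw [hp] at h1
  exact_mod_cast h1

/-- The field containing the power series, with the extended involution. -/
theorem exists_setting (k : Type) [Field k] [CharZero k] (Q I : Type) [Finite Q] [Finite I] :
    ∃ (κ Ω : Type) (_ : Field κ) (_ : IsAlgClosed κ) (_ : CharZero κ) (_ : Algebra k κ)
      (_ : Field Ω) (_ : IsAlgClosed Ω) (_ : Algebra k Ω) (ι : κ⟦X⟧ →ₐ[k] Ω)
      (τ : Ω ≃ₐ[k] Ω) (x : Q ⊕ I → κ), Function.Injective ι ∧ (∀ f, τ (ι f) = ι (tau κ f)) ∧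
      AlgebraicIndependent k (fun v : Q ⊕ (Unit ⊕ I) => ι (Sum.elim
        (fun q => 1 + X ^ 4 * C (x (Sum.inl q)))
        (Sum.elim (fun _ => X ^ 2) (fun i => X ^ 4 * C (x (Sum.inr i)))) v)) := by
  classical
  let κ := AlgebraicClosure (FractionRing (MvPolynomial (Q ⊕ I) k))
  have hκ0 : CharZero (FractionRing (MvPolynomial (Q ⊕ I) k)) :=
    charZero_of_injective_algebraMap (R := k) (algebraMap k _).injective
  have hκ1 : CharZero κ := charZero_of_injective_algebraMap
    (algebraMap (FractionRing (MvPolynomial (Q ⊕ I) k)) κ).injective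
  let Ω := AlgebraicClosure (LaurentSeries κ)
  let τΛ : LaurentSeries κ ≃+* LaurentSeries κ :=
    IsFractionRing.ringEquivOfRingEquiv (A := κ⟦X⟧) (B := κ⟦X⟧)
      (RingEquiv.ofRingHom (tau κ) (tau κ) (by ext1 f; exact tau_tau f)
        (by ext1 f; exact tau_tau f))
  have hτΛ : ∀ f : κ⟦X⟧, τΛ (algebraMap κ⟦X⟧ (LaurentSeries κ) f) =
      algebraMap κ⟦X⟧ (LaurentSeries κ) (tau κ f) := by
    intro f
    exact IsFractionRing.ringEquivOfRingEquiv_algebraMap _ _
  let τ' : Ω ≃+* Ω := IsAlgClosure.equivOfEquiv Ω Ω τΛ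
  let algO : Algebra k κ⟦X⟧ := inferInstance
  let i0 : κ⟦X⟧ →+* Ω := (algebraMap (LaurentSeries κ) Ω).comp (algebraMap κ⟦X⟧ (LaurentSeries κ))
  have hi0 : Function.Injective i0 :=
    (algebraMap (LaurentSeries κ) Ω).injective.comp (IsFractionRing.injective κ⟦X⟧ (LaurentSeries κ))
  have hτ' : ∀ f : κ⟦X⟧, τ' (i0 f) = i0 (tau κ f) := by
    intro f
    change τ' (algebraMap (LaurentSeries κ) Ω _) = _
    rw [IsAlgClosure.equivOfEquiv_algebraMap, hτΛ]
    rfl
  let algk : Algebra k Ω := (i0.comp (algebraMap k κ⟦X⟧)).toAlgebra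
  let ι : κ⟦X⟧ →ₐ[k] Ω := { i0 with commutes' := fun c => rfl }
  have hι : ∀ f, ι f = i0 f := fun f => rfl
  let τ : Ω ≃ₐ[k] Ω := AlgEquiv.ofRingEquiv (f := τ') (fun c => by
    change τ' (i0 (algebraMap k κ⟦X⟧ c)) = i0 (algebraMap k κ⟦X⟧ c)
    rw [hτ', PowerSeries.algebraMap_apply, tau_C])
  let x : Q ⊕ I → κ := fun v => algebraMap (FractionRing (MvPolynomial (Q ⊕ I) k)) κ
    (algebraMap (MvPolynomial (Q ⊕ I) k) _ (MvPolynomial.X v))
  have hx : AlgebraicIndependent k x := by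
    have h1 : AlgebraicIndependent k (MvPolynomial.X : Q ⊕ I → MvPolynomial (Q ⊕ I) k) :=
      MvPolynomial.algebraicIndependent_X _ _
    have h2 := h1.map' (f := IsScalarTower.toAlgHom k (MvPolynomial (Q ⊕ I) k)
      (FractionRing (MvPolynomial (Q ⊕ I) k)))
      (IsFractionRing.injective (MvPolynomial (Q ⊕ I) k) _)
    have h3 := h2.map' (f := IsScalarTower.toAlgHom k (FractionRing (MvPolynomial (Q ⊕ I) k)) κ)
      (algebraMap (FractionRing (MvPolynomial (Q ⊕ I) k)) κ).injective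
    exact h3
  refine ⟨κ, Ω, inferInstance, inferInstance, hκ1, inferInstance, inferInstance, inferInstance,
    algk, ι, τ, x, hi0, hτ', ?_⟩
  -- the reference family
  let algκ : Algebra κ Ω := (i0.comp (PowerSeries.C : κ →+* κ⟦X⟧)).toAlgebra
  have hT : IsScalarTower k κ Ω := IsScalarTower.of_algebraMap_eq fun c => by
    change i0 (algebraMap k κ⟦X⟧ c) = i0 (C (algebraMap k κ c))
    rw [PowerSeries.algebraMap_apply]
  have htr : Transcendental κ (i0 (X ^ 2)) := by
    have h1 : Transcendental κ ((X : κ⟦X⟧) ^ 2) := (tau_transcendental κ).pow (by norm_num)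
    let iκ : κ⟦X⟧ →ₐ[κ] Ω := { i0 with commutes' := fun c => rfl }
    exact fun h => h1 ((isAlgebraic_algHom_iff iκ hi0).1 h)
  have hy : AlgebraicIndependent κ (fun _ : Unit => i0 (X ^ 2)) :=
    algebraicIndependent_unique_type_iff.2 htr
  have hρ0 := AlgebraicIndependent.sumElim_comp (R := k) (S := κ) (A := Ω) hx hy
  refine indep_of_mem (ι := Unit ⊕ (Q ⊕ I)) ?_ _ hρ0 _ ?_
  · have := Fintype.ofFinite Q
    have := Fintype.ofFinite I
    simp only [Nat.card_eq_fintype_card, Fintype.card_sum, Fintype.card_unit]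
    omega
  · set S := IntermediateField.adjoin k (Set.range fun v : Q ⊕ (Unit ⊕ I) => ι (Sum.elim
        (fun q => 1 + X ^ 4 * C (x (Sum.inl q)))
        (Sum.elim (fun _ => X ^ 2) (fun i => X ^ 4 * C (x (Sum.inr i)))) v)) with hS
    have hX2 : i0 (X ^ 2) ∈ S := IntermediateField.subset_adjoin _ _ ⟨Sum.inr (Sum.inl ()), rfl⟩
    have hX4 : i0 (X ^ 4) ∈ S := by
      have : (X ^ 4 : κ⟦X⟧) = X ^ 2 * X ^ 2 := by ring
      rw [this, map_mul]
      exact S.mul_mem hX2 hX2
    have hX40 : i0 (X ^ 4) ≠ 0 := by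
      rw [map_ne_zero_iff _ hi0]
      exact pow_ne_zero _ X_ne_zero
    rintro (u | (q | i))
    · exact hX2
    · change i0 (C (x (Sum.inl q))) ∈ S
      have h1 : i0 (1 + X ^ 4 * C (x (Sum.inl q))) ∈ S :=
        IntermediateField.subset_adjoin _ _ ⟨Sum.inl q, rfl⟩
      have h2 : i0 (C (x (Sum.inl q))) = (i0 (1 + X ^ 4 * C (x (Sum.inl q))) - 1) / i0 (X ^ 4) := by
        rw [eq_div_iff hX40, map_add, map_one, map_mul]
        ring
      rw [h2]
      exact S.div_mem (S.sub_mem h1 S.one_mem) hX4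
    · change i0 (C (x (Sum.inr i))) ∈ S
      have h1 : i0 (X ^ 4 * C (x (Sum.inr i))) ∈ S :=
        IntermediateField.subset_adjoin _ _ ⟨Sum.inr (Sum.inr i), rfl⟩
      have h2 : i0 (C (x (Sum.inr i))) = i0 (X ^ 4 * C (x (Sum.inr i))) / i0 (X ^ 4) := by
        rw [eq_div_iff hX40, map_mul]
        ring
      rw [h2]
      exact S.div_mem h1 hX4

end lau

end Pool.Agent.H391R2.T4
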