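import Mathlib
import Pool.Agent.H391R2.T4.Deg

set_option autoImplicit false

namespace Pool.Agent.H391R2.T4

open MvPolynomial

set_option linter.unusedSectionVars false

section bc

variable {k k₁ : Type} [Field k] [Field k₁] [Algebra k k₁] {G : Type} [Group G] [Fintype G]
variable (y : MvPolynomial G k)

/-- Base change of the polynomial. -/
noncomputable def bcy (k₁ : Type) [Field k₁] [Algebra k k₁] (y : MvPolynomial G k) :
    MvPolynomial G k₁ := MvPolynomial.map (algebraMap k k₁) y

theorem bc_inj (σ : Type) : Function.Injective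
    (MvPolynomial.map (algebraMap k k₁) : MvPolynomial σ k → MvPolynomial σ k₁) :=
  MvPolynomial.map_injective _ (algebraMap k k₁).injective

instance bcYData [YData y] : YData (bcy k₁ y) where
  inv g := by
    unfold bcy
    rw [← MvPolynomial.map_rename, YData.inv (y := y)]
  stab π h := by
    unfold bcy at h
    rw [← MvPolynomial.map_rename] at h
    exact YData.stab (y := y) π (bc_inj G h)

theorem tv_bcy (i : Option (Fin (Fintype.card G))) :
    tv (bcy k₁ y) i = MvPolynomial.map (algebraMap k k₁) (tv y i) := by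
  cases i with
  | none => rfl
  | some i => exact (MvPolynomial.map_esymm G k _ _).symm

theorem aeval_tv_bcy {E : Type} [CommRing E] [Algebra k E] [Algebra k₁ E] [IsScalarTower k k₁ E]
    (v : G → E) (i : Option (Fin (Fintype.card G))) :
    aeval v (tv (bcy k₁ y) i) = aeval v (tv y i) := by
  rw [tv_bcy, aeval_map_algebraMap]

theorem aeval_bcy {E : Type} [CommRing E] [Algebra k E] [Algebra k₁ E] [IsScalarTower k k₁ E]
    (v : G → E) : aeval v (bcy k₁ y) = aeval v y :=
  aeval_tv_bcy y v none

theorem SolP_bcy {E : Type} [CommRing E] [Algebra k E] [Algebra k₁ E] [IsScalarTower k k₁ E]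
    (P : Option (Fin (Fintype.card G)) → Polynomial E) (s : E) (v : G → E) :
    SolP (bcy k₁ y) P s v ↔ SolP y P s v := by
  unfold SolP
  simp only [aeval_tv_bcy]

theorem orb_bcy [DecidableEq (MvPolynomial G k₁)] :
    orb (bcy k₁ y) = (orb y).image (MvPolynomial.map (algebraMap k k₁)) := by
  classical
  ext q
  rw [mem_orb, Finset.mem_image]
  constructor
  · rintro ⟨π, rfl⟩
    refine ⟨rename π y, (mem_orb y).2 ⟨π, rfl⟩, ?_⟩
    rw [MvPolynomial.map_rename]
    rfl
  · rintro ⟨p, hp, rfl⟩
    obtain ⟨π, rfl⟩ := (mem_orb y).1 hp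
    refine ⟨π, ?_⟩
    rw [MvPolynomial.map_rename]
    rfl

/-- Base change of the eliminant. -/
noncomputable def bcP (k₁ : Type) [Field k₁] [Algebra k k₁]
    (Ψ : Polynomial (MvPolynomial (Fin (Fintype.card G)) k)) :
    Polynomial (MvPolynomial (Fin (Fintype.card G)) k₁) :=
  Ψ.map (MvPolynomial.map (algebraMap k k₁))

theorem bcP_natDegree (Ψ : Polynomial (MvPolynomial (Fin (Fintype.card G)) k)) :
    (bcP k₁ Ψ).natDegree = Ψ.natDegree :=
  Polynomial.natDegree_map_eq_of_injective (bc_inj _) _

theorem bcP_psi (Ψ : Polynomial (MvPolynomial (Fin (Fintype.card G)) k))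
    (hΨ : Ψ.map ((aeval fun i : Fin (Fintype.card G) => esymm G k (i + 1) :
      MvPolynomial (Fin (Fintype.card G)) k →ₐ[k] MvPolynomial G k) :
      MvPolynomial (Fin (Fintype.card G)) k →+* MvPolynomial G k) =
      ∏ q ∈ orb y, (Polynomial.X - Polynomial.C q)) :
    (bcP k₁ Ψ).map ((aeval fun i : Fin (Fintype.card G) => esymm G k₁ (i + 1) :
      MvPolynomial (Fin (Fintype.card G)) k₁ →ₐ[k₁] MvPolynomial G k₁) :
      MvPolynomial (Fin (Fintype.card G)) k₁ →+* MvPolynomial G k₁) =
      ∏ q ∈ orb (bcy k₁ y), (Polynomial.X - Polynomial.C q) := by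
  classical
  have h1 := congrArg (Polynomial.map (MvPolynomial.map (algebraMap k k₁) :
    MvPolynomial G k →+* MvPolynomial G k₁)) hΨ
  rw [Polynomial.map_map, Polynomial.map_prod] at h1
  simp only [Polynomial.map_sub, Polynomial.map_X, Polynomial.map_C] at h1
  rw [orb_bcy, Finset.prod_image (fun a _ b _ h => bc_inj G h), ← h1]
  unfold bcP
  rw [Polynomial.map_map]
  congr 1
  apply MvPolynomial.ringHom_ext
  · intro c
    simp
  · intro i
    simp only [RingHom.coe_comp, Function.comp_apply, MvPolynomial.map_X, RingHom.coe_coe,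
      aeval_X]
    exact (MvPolynomial.map_esymm G k _ _).symm

theorem PhiP_bcP (Ψ : Polynomial (MvPolynomial (Fin (Fintype.card G)) k))
    {E : Type} [CommRing E] [Algebra k E] [Algebra k₁ E] [IsScalarTower k k₁ E]
    (P : Option (Fin (Fintype.card G)) → Polynomial E) : PhiP (bcP k₁ Ψ) P = PhiP Ψ P := by
  unfold PhiP bcP
  rw [Polynomial.eval₂_map]
  congr 1
  apply MvPolynomial.ringHom_ext
  · intro c
    simp only [RingHom.coe_comp, Function.comp_apply, MvPolynomial.map_C, RingHom.coe_coe,
      algHom_C]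
    rw [Polynomial.algebraMap_apply, Polynomial.algebraMap_apply,
      ← IsScalarTower.algebraMap_apply]
  · intro i
    simp only [RingHom.coe_comp, Function.comp_apply, MvPolynomial.map_X, RingHom.coe_coe,
      aeval_X]

/-- The coefficients of the unperturbed tuple under base change. -/
theorem aeval_l_bc (l : G → k) (q : MvPolynomial G k) :
    aeval (fun g => algebraMap k k₁ (l g)) (MvPolynomial.map (algebraMap k k₁) q) =
      algebraMap k k₁ (aeval l q) := by
  rw [aeval_map_algebraMap]
  have h1 := comp_aeval_apply (f := l) (φ := Algebra.ofId k k₁) q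
  rw [Algebra.ofId_apply] at h1
  exact h1.symm

theorem bsT_bc {E : Type} [CommRing E] [Algebra k E] [Algebra k₁ E] [IsScalarTower k k₁ E]
    (l : G → k) (Q : Polynomial E) (i : Option (Fin (Fintype.card G))) :
    bsT (bcy k₁ y) (fun g => algebraMap k k₁ (l g)) Q i = bsT y l Q i := by
  cases i with
  | none =>
    simp only [bsT]
    unfold bcy
    rw [aeval_l_bc, ← IsScalarTower.algebraMap_apply]
  | some i =>
    simp only [bsT]
    have h1 := aeval_l_bc (k₁ := k₁) l (esymm G k (i + 1))
    rw [MvPolynomial.map_esymm] at h1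
    rw [h1, ← IsScalarTower.algebraMap_apply]

end bc

end Pool.Agent.H391R2.T4
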