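import Mathlib
import Pool.Agent.H391R2.T4.Nod

set_option autoImplicit false

namespace Pool.Agent.H391R2.T4

open MvPolynomial

set_option linter.unusedSectionVars false

section ser

variable {k : Type} [Field k] [CharZero k] {G : Type} [Group G] [Fintype G]
variable (y : MvPolynomial G k) {Q : Type} [Fintype Q] {J : ℕ}
variable {κ : Type} [Field κ] [Algebra k κ]

/-- The tuple over the power series ring. -/
noncomputable def PO (d : Dat k G Q (Fin J))
    (x : Q ⊕ (Option (Fin (Fintype.card G)) ⊕ Option (Fin (Fintype.card G))) → κ)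
    (i : Option (Fin (Fintype.card G))) : Polynomial (PowerSeries κ) :=
  PP y d (fun q => 1 + PowerSeries.X ^ 4 * PowerSeries.C (x (Sum.inl q))) (PowerSeries.X ^ 2)
    (fun i => PowerSeries.X ^ 4 * PowerSeries.C (x (Sum.inr i))) i

theorem PO_tau (d : Dat k G Q (Fin J))
    (x : Q ⊕ (Option (Fin (Fintype.card G)) ⊕ Option (Fin (Fintype.card G))) → κ)
    (i : Option (Fin (Fintype.card G))) : (PO y d x i).map (tau κ) = PO y d x i := by
  have h1 := PP_map y d (tauA k κ)
    (fun q => 1 + PowerSeries.X ^ 4 * PowerSeries.C (x (Sum.inl q))) (PowerSeries.X ^ 2)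
    (fun i => PowerSeries.X ^ 4 * PowerSeries.C (x (Sum.inr i))) i
  have h2 : ∀ f : PowerSeries κ, tauA k κ f = tau κ f := fun f => rfl
  have h3 : ((tauA k κ : PowerSeries κ →ₐ[k] PowerSeries κ) : PowerSeries κ →+* PowerSeries κ) =
    tau κ := rfl
  have h4 : tau κ (PowerSeries.X ^ 4) = PowerSeries.X ^ 4 := by
    have : (PowerSeries.X ^ 4 : PowerSeries κ) = (PowerSeries.X ^ 2) ^ 2 := by ring
    rw [this, map_pow, tau_X_sq]
  rw [h3] at h1
  unfold PO
  rw [h1]
  simp only [h2, map_add, map_one, map_mul, h4, tau_C, tau_X_sq]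

theorem aeval_pert {E : Type} [CommRing E] [Algebra k E] (p : Polynomial k) (hp : p.eval 1 = 0)
    (u v : E) : ∃ z : E, Polynomial.aeval (1 + u * v) p = u * z := by
  obtain ⟨g, hg⟩ := Polynomial.dvd_iff_isRoot.2 (show p.IsRoot 1 from hp)
  refine ⟨v * Polynomial.aeval (1 + u * v) g, ?_⟩
  rw [hg]
  simp only [map_mul, map_sub, Polynomial.aeval_X, map_one]
  ring

theorem PO_dec (d : Dat k G Q (Fin J)) (h : GD y d)
    (x : Q ⊕ (Option (Fin (Fintype.card G)) ⊕ Option (Fin (Fintype.card G))) → κ) :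
    ∃ D : Option (Fin (Fintype.card G)) → Polynomial (PowerSeries κ),
    ∀ i, PO y d x i = bsT y d.l (Polynomial.C (algebraMap k (PowerSeries κ) d.c) *
      ((Polynomial.X ^ 2 - Polynomial.C (PowerSeries.X ^ 2)) * d.R.map (algebraMap k _))) i +
      Polynomial.C (PowerSeries.X ^ 4) * D i := by
  have h1 : ∀ (q : Q) i, ∃ z : PowerSeries κ, Polynomial.aeval
      (1 + PowerSeries.X ^ 4 * PowerSeries.C (x (Sum.inl q)))
      (kp y d.l (d.hh q) (d.ζ q) d.e i) = PowerSeries.X ^ 4 * z := fun q i =>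
    aeval_pert _ (kp_eval_one y d.l (d.hh q) (d.ζ q) d.e h.he0 (h.hζ q) i) _ _
  choose z hz using h1
  refine ⟨fun i => (∑ q : Q, Polynomial.C (z q i) *
    (Lagrange.basis Finset.univ d.nd (d.emb q)).map (algebraMap k _)) +
    d.w.map (algebraMap k _) * (Polynomial.C (PowerSeries.C (x (Sum.inr (Sum.inl i)))) +
      Polynomial.C (PowerSeries.C (x (Sum.inr (Sum.inr i)))) * Polynomial.X), fun i => ?_⟩
  unfold PO PP
  have hs : (∑ q : Q, Polynomial.C (Polynomial.aeval
      (1 + PowerSeries.X ^ 4 * PowerSeries.C (x (Sum.inl q)))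
      (kp y d.l (d.hh q) (d.ζ q) d.e i)) *
      (Lagrange.basis Finset.univ d.nd (d.emb q)).map (algebraMap k (PowerSeries κ))) =
      Polynomial.C (PowerSeries.X ^ 4) * ∑ q : Q, Polynomial.C (z q i) *
    (Lagrange.basis Finset.univ d.nd (d.emb q)).map (algebraMap k _) := by
    rw [Finset.mul_sum]
    refine Finset.sum_congr rfl fun q _ => ?_
    rw [hz, Polynomial.C_mul, mul_assoc]
  rw [hs]
  simp only [Polynomial.C_mul]
  ring

open Classical in
/-- The roots over the power series ring. -/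
theorem ser_roots [IsAlgClosed κ] [CharZero κ] (d : Dat k G Q (Fin J)) (h : GD y d)
    (Ψ : Polynomial (MvPolynomial (Fin (Fintype.card G)) k)) (hm : Ψ.Monic)
    (hΨ : Ψ.map ((aeval fun i : Fin (Fintype.card G) => esymm G k (i + 1) :
      MvPolynomial (Fin (Fintype.card G)) k →ₐ[k] MvPolynomial G k) :
      MvPolynomial (Fin (Fintype.card G)) k →+* MvPolynomial G k) =
      ∏ q ∈ orb y, (Polynomial.X - Polynomial.C q))
    (T : ℕ) (hT : ∀ e, (Ψ.coeff e).totalDegree ≤ T)
    (hsep : (Polynomial.C d.c * d.R * ∏ q ∈ (orb y).erase y,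
      (Polynomial.C d.c * (Polynomial.X ^ 2 * d.R) -
      Polynomial.C (aeval d.l q - aeval d.l y))).Separable)
    (M : ℕ) (hJM : J + 1 < M) (hB : T * (J + 1) < M) (hM : 2 + d.R.natDegree = M) (n' : ℕ)
    (hdeg : Ψ.natDegree * M = n' + 2)
    (x : Q ⊕ (Option (Fin (Fintype.card G)) ⊕ Option (Fin (Fintype.card G))) → κ) :
    ∃ (α : Fin n' → PowerSeries κ) (z z' : PowerSeries κ),
      Function.Injective (fun i => PowerSeries.constantCoeff (α i)) ∧
      (∀ i, PowerSeries.constantCoeff (α i) ≠ 0) ∧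
      (∀ i, tau κ (α i) = α i) ∧ PowerSeries.constantCoeff z = 0 ∧
      PowerSeries.constantCoeff z' = 0 ∧ z ≠ z' ∧
      tau κ z = z' ∧ tau κ z' = z ∧
      PhiP Ψ (PO y d x) = Polynomial.C (algebraMap k (PowerSeries κ) (d.c ^ Ψ.natDegree)) *
        ((Polynomial.X - Polynomial.C z) * (Polynomial.X - Polynomial.C z') *
        ∏ i, (Polynomial.X - Polynomial.C (α i))) := by
  have hwd : d.w.natDegree ≤ J := by
    rw [h.hw]
    refine (Polynomial.natDegree_prod_le _ _).trans ?_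
    simp
  obtain ⟨h1, h2, h3⟩ := PP_deg y d (E := PowerSeries κ)
    (fun q => 1 + PowerSeries.X ^ 4 * PowerSeries.C (x (Sum.inl q))) (PowerSeries.X ^ 2)
    (fun i => PowerSeries.X ^ 4 * PowerSeries.C (x (Sum.inr i))) hwd h.hc h.hR h.hnd M hM hJM
  obtain ⟨D, hD⟩ := PO_dec y d h x
  exact config_roots y Ψ hm hΨ T hT d.l d.c h.hc d.R h.hR0 h.hδ hsep (J + 1) M hB hM n' hdeg
    (PO y d x) h1 h2 h3 (PO_tau y d x) D hD

/-- Fibres. -/
theorem ser_fibre (d : Dat k G Q (Fin J)) (h : GD y d)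
    (x : Q ⊕ (Option (Fin (Fintype.card G)) ⊕ Option (Fin (Fintype.card G))) → κ)
    {Ω : Type} [Field Ω] [Algebra k Ω] (ι : PowerSeries κ →ₐ[k] Ω) (s : PowerSeries κ)
    (v : G → Ω) (hv : ∀ i : Fin (Fintype.card G), aeval v (esymm G k (i + 1)) =
      ι ((PO y d x (some i)).eval s)) :
    ∃ v' : G → PowerSeries κ, (∀ g, v g = ι (v' g)) ∧
      (tau κ s = s → ∀ g, tau κ (v' g) = v' g) := by
  obtain ⟨D, hD⟩ := PO_dec y d h x
  obtain ⟨v', h1, h2⟩ := fibre_coords d.l h.hl ι (fun i => (PO y d x (some i)).eval s) (by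
    intro i
    have h5 : (PowerSeries.constantCoeff : PowerSeries κ →+* κ) (PowerSeries.X ^ 4) = 0 := by simp
    simp only [hD, bsT, Polynomial.eval_add, Polynomial.eval_mul, Polynomial.eval_C]
    rw [map_add, map_mul, h5, zero_mul, add_zero, PowerSeries.algebraMap_apply,
      PowerSeries.constantCoeff_C]) v hv
  refine ⟨v', h1, fun hs => h2 fun i => ?_⟩
  rw [← Polynomial.eval_map_apply, PO_tau, hs]

end ser

end Pool.Agent.H391R2.T4
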