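import Mathlib
import Pool.Agent.H391R2.T4.GeoA
import Pool.Agent.H391R2.T4.Utl
import Pool.Agent.H391R2.FnC

set_option autoImplicit false

namespace Pool.Agent.H391R2.T4

open MvPolynomial

set_option linter.unusedSectionVars false

section geob

variable {k : Type} [Field k] [CharZero k] {G : Type} [Group G] [Fintype G]
variable (y : MvPolynomial G k) {Q : Type} [Fintype Q] {J : ℕ}

open Classical in
/-- The abstract geometric theorem. -/
theorem geo2 [YData y] (hG3 : 3 ≤ Fintype.card G) (d : Dat k G Q (Fin J)) (h : GD y d)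
    (Ψ : Polynomial (MvPolynomial (Fin (Fintype.card G)) k)) (hm : Ψ.Monic)
    (hΨ : Ψ.map ((aeval fun i : Fin (Fintype.card G) => esymm G k (i + 1) :
      MvPolynomial (Fin (Fintype.card G)) k →ₐ[k] MvPolynomial G k) :
      MvPolynomial (Fin (Fintype.card G)) k →+* MvPolynomial G k) =
      ∏ q ∈ orb y, (Polynomial.X - Polynomial.C q))
    (T : ℕ) (hT : ∀ e, (Ψ.coeff e).totalDegree ≤ T)
    (hsep : (Polynomial.C d.c * d.R * ∏ q ∈ (orb y).erase y,
      (Polynomial.C d.c * (Polynomial.X ^ 2 * d.R) -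
      Polynomial.C (aeval d.l q - aeval d.l y))).Separable)
    (M : ℕ) (hJM : J + 1 < M) (hB : T * (J + 1) < M) (hM : 2 + d.R.natDegree = M) (n : ℕ)
    (hn : 3 ≤ n) (hdeg : Ψ.natDegree * M = n + J)
    {N : Type} [Field N] [Algebra k N] [IsAlgClosed N]
    (ξ : Q ⊕ (Unit ⊕ (Option (Fin (Fintype.card G)) ⊕ Option (Fin (Fintype.card G)))) → N)
    (hξ : IsTranscendenceBasis k ξ)
    -- the field of the first parameters
    (k₁ : Type) [Field k₁] [Algebra k k₁] [Algebra k₁ N] [IsScalarTower k k₁ N]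
    (hk₁ : ∀ x : k₁, algebraMap k₁ N x ∈ IntermediateField.adjoin k (Set.range
      (Sum.elim (fun q => ξ (Sum.inl q) ^ d.e) (fun _ : Unit => ξ (Sum.inr (Sum.inl ()))))))
    (Ye : Q → k₁) (hYe : ∀ q, algebraMap k₁ N (Ye q) = ξ (Sum.inl q) ^ d.e)
    (t₁ : k₁) (ht₁ : algebraMap k₁ N t₁ = ξ (Sum.inr (Sum.inl ())))
    (kc : Q → Option (Fin (Fintype.card G)) → k₁)
    (hkc : ∀ q i, algebraMap k₁ N (kc q i) =
      Polynomial.aeval (ξ (Sum.inl q)) (kp y d.l (d.hh q) (d.ζ q) d.e i))
    (hθ : AlgebraicIndependent k₁ (fun i => ξ (Sum.inr (Sum.inr i)))) :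
    ∃ (r : Fin n → N) (vv : Fin n → G → N), Function.Injective r ∧
      (∀ i, Polynomial.aeval (r i) d.w ≠ 0) ∧ (∀ i, SolP y (PX y d ξ) (r i) (vv i)) ∧
      (∀ i, Function.Injective (vv i)) ∧
      (∀ s v, SolP y (PX y d ξ) s v → Polynomial.aeval s d.w ≠ 0 →
        ∃ i, s = r i ∧ ∃ g, v = vv i ∘ Equiv.mulLeft g) ∧
      ∀ x : Wr G n, ∃ σ : N ≃ₐ[k] N, (∀ q, σ (ξ (Sum.inl q) ^ d.e) = ξ (Sum.inl q) ^ d.e) ∧
        (∀ v, σ (ξ (Sum.inr v)) = ξ (Sum.inr v)) ∧
        ∀ i, σ (r i) = r (x.right i) ∧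
          ∀ g, σ (vv i g) = vv (x.right i) (x.left (x.right i) * g) := by
  obtain ⟨r, vv, hr, hrw, hsol, hall, Ω, i1, i2, j, τ, hτξ, c₁, c₂, hcc, hτ1, hτ2, hτ3, hτ4⟩ :=
    geo1 y d h Ψ hm hΨ T hT hsep M hJM hB hM n hn hdeg ξ hξ
  obtain ⟨θ, hθdef⟩ : ∃ θ : Option (Fin (Fintype.card G)) ⊕ Option (Fin (Fintype.card G)) → N,
    θ = fun i => ξ (Sum.inr (Sum.inr i)) := ⟨_, rfl⟩
  rw [← hθdef] at hθ
  have hjinj : Function.Injective j := j.toRingHom.injective
  have hck : CharZero k₁ := charZero_of_injective_algebraMap (algebraMap k k₁).injective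
  obtain ⟨F, iF1, iF2, iF3, iF4, iF5, φ, hφ⟩ := exists_field hθ
  let _ : Algebra F N := φ.toRingHom.toAlgebra
  have hTF : IsScalarTower k₁ F N := IsScalarTower.of_algebraMap_eq fun x => (φ.commutes x).symm
  have hθF : ∀ i, θ i = algebraMap F N (algebraMap (MvPolynomial
      (Option (Fin (Fintype.card G)) ⊕ Option (Fin (Fintype.card G))) k₁) F
      (MvPolynomial.X i)) := by
    intro i
    change _ = φ _
    rw [hφ, aeval_X]
  let _ : Algebra k F := ((algebraMap k₁ F).comp (algebraMap k k₁)).toAlgebra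
  have hTkF : IsScalarTower k k₁ F := IsScalarTower.of_algebraMap_eq fun x => rfl
  have hTkN : IsScalarTower k F N := IsScalarTower.of_algebraMap_eq fun x => by
    rw [IsScalarTower.algebraMap_apply k k₁ N, IsScalarTower.algebraMap_apply k₁ F N]
    rfl
  -- N is algebraic over F
  have hbas : IsTranscendenceBasis k (Sum.elim (fun q => ξ (Sum.inl q) ^ d.e)
      (fun w => ξ (Sum.inr w))) := basis_pow ξ hξ d.e h.he0
  have halg : Algebra.IsAlgebraic F N := by
    refine alg_of_range _ hbas ?_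
    rintro (q | (u | i))
    · exact ⟨algebraMap k₁ F (Ye q), by
        rw [← IsScalarTower.algebraMap_apply k₁ F N, hYe]; rfl⟩
    · exact ⟨algebraMap k₁ F t₁, by
        rw [← IsScalarTower.algebraMap_apply k₁ F N, ht₁]; rfl⟩
    · exact ⟨_, by rw [← hθF, hθdef]; rfl⟩
  have hcl : IsAlgClosure F N := ⟨inferInstance, halg⟩
  have hnorm : Normal F N := IsAlgClosure.normal F N
  -- equality on F
  have heqF : ∀ {Ω' : Type} [Field Ω'] [Algebra k Ω'] (f g : N →ₐ[k] Ω'),
      (∀ q, f (ξ (Sum.inl q) ^ d.e) = g (ξ (Sum.inl q) ^ d.e)) →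
      (∀ v, f (ξ (Sum.inr v)) = g (ξ (Sum.inr v))) →
      ∀ x : F, f (algebraMap F N x) = g (algebraMap F N x) := by
    intro Ω' _ _ f g h1 h2 x
    have h3 : ∀ x : k₁, f (algebraMap k₁ N x) = g (algebraMap k₁ N x) := by
      intro x
      refine eq_on_adjoin f g _ ?_ _ (hk₁ x)
      rintro _ ⟨v, rfl⟩
      rcases v with q | u
      · exact h1 q
      · exact h2 _
    let _ : Algebra k₁ Ω' := ((f : N →+* Ω').comp (algebraMap k₁ N)).toAlgebra
    let f' : N →ₐ[k₁] Ω' := { (f : N →+* Ω') with commutes' := fun c => rfl }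
    let g' : N →ₐ[k₁] Ω' := { (g : N →+* Ω') with commutes' := fun c => (h3 c).symm }
    have h4 := eq_on_adjoin f' g' (Set.range θ) (by
      rintro _ ⟨i, rfl⟩
      rw [hθdef]
      exact h2 _) _ (field_le θ hθF x)
    exact h4
  -- the transposition
  obtain ⟨τN, hτN⟩ := exists_restrict (F := F) (N := N) (j : N →+* Ω) (τ : Ω ≃+* Ω) (fun x => by
    refine heqF ((τ : Ω →ₐ[k] Ω).comp j) j (fun q => ?_) (fun v => ?_) x
    · change τ (j _) = j _
      rw [map_pow, map_pow, hτξ]
    · exact hτξ _)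
  have hτN' : ∀ x, j (τN x) = τ (j x) := hτN
  -- solutions
  have hfam : ∀ i, fam G (fun i => base1 y d t₁ i + corr1 d kc i) (d.w.map (algebraMap k k₁)) θ i =
      PX y d ξ i := by
    intro i
    rw [fam_PP y d t₁ kc (fun q => ξ (Sum.inl q)) hkc θ i, ht₁, hθdef]
    rfl
  have hw1 : ∀ s : N, Polynomial.aeval s (d.w.map (algebraMap k k₁)) = Polynomial.aeval s d.w :=
    fun s => Polynomial.aeval_map_algebraMap _ _ _
  have hSolP : ∀ s v, Sol (bcy k₁ y) (fun i => base1 y d t₁ i + corr1 d kc i)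
      (d.w.map (algebraMap k k₁)) θ s v ↔ Polynomial.aeval s d.w ≠ 0 ∧ SolP y (PX y d ξ) s v := by
    intro s v
    unfold Sol SolP
    simp only [hfam, hw1, aeval_tv_bcy]
  have hvind : ∀ i, Function.Injective (vv i) := by
    intro i
    have : Nontrivial (Fin n) := Fin.nontrivial_iff_two_le.2 (by omega)
    obtain ⟨i', hi'⟩ := exists_ne i
    exact (indep_v (bcy k₁ y) _ _ θ hθ (r i) (vv i) (r i') (vv i')
      ((hSolP _ _).2 ⟨hrw i, hsol i⟩) ((hSolP _ _).2 ⟨hrw i', hsol i'⟩)
      (fun h => hi' (hr h).symm)).injective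
  have hvind' : ∀ i, AlgebraicIndependent k₁ (vv i) := by
    intro i
    have : Nontrivial (Fin n) := Fin.nontrivial_iff_two_le.2 (by omega)
    obtain ⟨i', hi'⟩ := exists_ne i
    exact (indep_v (bcy k₁ y) _ _ θ hθ (r i) (vv i) (r i') (vv i')
      ((hSolP _ _).2 ⟨hrw i, hsol i⟩) ((hSolP _ _).2 ⟨hrw i', hsol i'⟩)
      (fun h => hi' (hr h).symm))
  obtain ⟨π, hπ1, hπ2⟩ := main_abs (bcy k₁ y) (fun i => base1 y d t₁ i + corr1 d kc i)
    (d.w.map (algebraMap k k₁)) θ hθ hθF n hn r hr vv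
    (fun i => (hSolP _ _).2 ⟨hrw i, hsol i⟩)
    (fun s v hsv => hall s v ((hSolP _ _).1 hsv).2 ((hSolP _ _).1 hsv).1) τN c₁ c₂ hcc
    (hjinj (by rw [hτN', hτ1])) (hjinj (by rw [hτN', hτ2]))
    (fun g => hjinj (by rw [hτN', hτN', hτ3]))
    (fun i hi1 hi2 => ⟨hjinj (by rw [hτN', (hτ4 i hi1 hi2).1]),
      fun g => hjinj (by rw [hτN', (hτ4 i hi1 hi2).2])⟩)
  -- surjectivity
  have hsurj : Function.Surjective π := by
    refine range_top π hπ1 fun g => ?_
    obtain ⟨q, hq⟩ := h.hsurj g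
    obtain ⟨γ₀, hγ₀⟩ := exists_twist ξ hξ (fun v => if v = Sum.inl q then d.ζ q else 1) (by
      intro v
      by_cases hv : v = Sum.inl q
      · simp only [if_pos hv]
        exact (h.hζ q).ne_zero h.he0.ne'
      · simp only [if_neg hv]
        exact one_ne_zero)
    have hγq : γ₀ (ξ (Sum.inl q)) = algebraMap k N (d.ζ q) * ξ (Sum.inl q) := by
      rw [hγ₀, if_pos rfl]
    have hγv : ∀ v, v ≠ Sum.inl q → γ₀ (ξ v) = ξ v := by
      intro v hv
      rw [hγ₀, if_neg hv, map_one, one_mul]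
    have hγe : ∀ q', γ₀ (ξ (Sum.inl q') ^ d.e) = ξ (Sum.inl q') ^ d.e := by
      intro q'
      by_cases hq' : q' = q
      · subst hq'
        rw [map_pow, hγq, mul_pow, ← map_pow, (h.hζ q').pow_eq_one, map_one, one_mul]
      · rw [map_pow, hγv _ (fun e => hq' (Sum.inl_injective e))]
    have hγF : ∀ x : F, γ₀ (algebraMap F N x) = algebraMap F N x :=
      heqF γ₀ (AlgHom.id k N) hγe (fun v => hγv _ (by simp))
    let γF : N →ₐ[F] N := { (γ₀ : N →+* N) with commutes' := hγF }
    let γ : N ≃ₐ[F] N := AlgEquiv.ofBijective γF (Algebra.IsAlgebraic.algHom_bijective γF)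
    have hγapp : ∀ x, γ x = γ₀ x := fun x => rfl
    let γ₁ : N →ₐ[k₁] N := (γ : N →ₐ[F] N).restrictScalars k₁
    have hγ₁ : ∀ x, γ₁ x = γ₀ x := fun x => rfl
    refine ⟨γ, ?_⟩
    have hwd : d.w.natDegree ≤ J := by
      rw [h.hw]
      refine (Polynomial.natDegree_prod_le _ _).trans ?_
      simp
    have hnuE : ∀ a, SolP (bcy k₁ y) (fun i => (base1 y d t₁ i + corr1 d kc i).map
        (algebraMap k₁ N)) (algebraMap k₁ N (algebraMap k k₁ (d.nd a)))
        (nu d (fun q => ξ (Sum.inl q)) a) := by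
      intro a
      rw [SolP_bcy]
      intro i
      have h1 := PX_node y d h ξ a i
      rw [← hfam i] at h1
      rw [h1, ← IsScalarTower.algebraMap_apply]
      unfold fam
      rw [Polynomial.eval_add, Polynomial.eval_mul]
      have h2 : ((d.w.map (algebraMap k k₁)).map (algebraMap k₁ N)).eval
          (algebraMap k N (d.nd a)) = 0 := by
        rw [Polynomial.map_map, ← IsScalarTower.algebraMap_eq]
        exact w_eval h a
      rw [h2, zero_mul, add_zero]
    have htrans : ∀ q, Transcendental k (ξ (Sum.inl q)) := fun q => hξ.1.transcendental _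
    have hcls := class_eq (bcy k₁ y) hG3 (bcP k₁ Ψ) (bcP_psi y Ψ hΨ)
      (fun i => base1 y d t₁ i) (fun i => corr1 d kc i) (d.w.map (algebraMap k k₁)) (n := n)
      (J := J) (algebraMap k k₁ (d.c ^ Ψ.natDegree))
      ((_root_.map_ne_zero _).2 (pow_ne_zero _ h.hc)) (by
        intro E _ _ θ' x
        let _ : Algebra k E := ((algebraMap k₁ E).comp (algebraMap k k₁)).toAlgebra
        have hTE : IsScalarTower k k₁ E := IsScalarTower.of_algebraMap_eq fun x => rfl
        rw [PhiP_bcP]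
        obtain ⟨e1, e2, e3⟩ := path_deg y d.l d.c h.hc d.R h.hR M hM hJM t₁ (corr1 d kc)
          (by
            intro i
            unfold corr1
            apply Polynomial.natDegree_sum_le_of_forall_le
            intro q _
            refine (Polynomial.natDegree_C_mul_le _ _).trans
              (Polynomial.natDegree_map_le.trans ?_)
            exact lagrange_natDegree d.nd h.hnd _)
          (d.w.map (algebraMap k k₁)) (Polynomial.natDegree_map_le.trans hwd) θ' x
        obtain ⟨e4, e5⟩ := PhiP_natDegree Ψ hm T hT _ (J + 1) M hB e1 e2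
        refine ⟨e4.trans hdeg, ?_⟩
        rw [map_pow, map_pow]
        rw [← e3]
        exact e5)
      (fun a => algebraMap k k₁ (d.nd a))
      (fun a b hab => h.hnd ((algebraMap k k₁).injective hab))
      (fun a => by
        have h1 := w_eval h (E := k₁) a
        rwa [← Polynomial.coe_aeval_eq_eval] at h1)
      (by
        intro E _ _ s hs
        let _ : Algebra k E := ((algebraMap k₁ E).comp (algebraMap k k₁)).toAlgebra
        have hTE : IsScalarTower k k₁ E := IsScalarTower.of_algebraMap_eq fun x => rfl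
        rw [Polynomial.aeval_map_algebraMap] at hs
        obtain ⟨a, ha⟩ := w_root h s hs
        exact ⟨a, ha⟩)
      (fun g => algebraMap k k₁ (d.l g))
      (fun a b hab => h.hl ((algebraMap k k₁).injective hab))
      (by
        intro i
        have h1 := aeval_l_bc (k₁ := k₁) d.l (esymm G k (i + 1))
        rw [MvPolynomial.map_esymm] at h1
        rw [h1]
        rfl)
      θ hθ (by omega) r hr vv
      (fun i => (hSolP _ _).2 ⟨hrw i, hsol i⟩)
      (fun a => nu d (fun q => ξ (Sum.inl q)) a) hnuE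
      (fun a => nu_inj h _ htrans a)
      (fun a σ hσ => by
        rw [aeval_bcy, aeval_bcy] at hσ
        exact nu_stab h _ htrans a σ hσ)
      γ₁ (fun i => by
        rw [hγ₁, hθdef]
        exact hγv _ (by simp))
      (π γ).right (fun i => (π γ).left ((π γ).right i))
      (fun i g => (hπ2 γ i).2 g)
      (fun a => if a = d.emb q then d.hh q else 1)
      (fun a x => by
        rw [hγ₁]
        by_cases ha : a = d.emb q
        · subst ha
          rw [if_pos rfl, nu_emb h, nu_emb h, ← Polynomial.aeval_algHom_apply, hγq]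
          exact Mv_twist d.l (d.hh q) (d.ζ q) d.e (h.hhe q) (h.hζ q).pow_eq_one
            ((h.hζ q).ne_zero h.he0.ne') x (ξ (Sum.inl q))
        · rw [if_neg ha, one_mul]
          by_cases ha' : ∃ q', d.emb q' = a
          · obtain ⟨q', rfl⟩ := ha'
            rw [nu_emb h, ← Polynomial.aeval_algHom_apply, hγv _ (fun e => ha (by
              rw [Sum.inl_injective e]))]
          · rw [nu_not _ _ ha', γ₀.commutes])
    have h1 : ∏ i, Abelianization.of ((π γ).left ((π γ).right i)) = wcls G n (π γ) := by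
      rw [wcls_apply]
      exact Equiv.prod_comp (π γ).right (fun i => Abelianization.of ((π γ).left i))
    have h2 : ∏ a, Abelianization.of (if a = d.emb q then d.hh q else 1) =
        Abelianization.of g := by
      rw [Finset.prod_eq_single (d.emb q)]
      · rw [if_pos rfl, hq]
      · intro a _ ha
        rw [if_neg ha, map_one]
      · intro h0
        exact absurd (Finset.mem_univ _) h0
    rw [h1, h2] at hcls
    exact hcls
  refine ⟨r, vv, hr, hrw, hsol, hvind, ?_, ?_⟩
  · intro s v hs hsw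
    obtain ⟨i, rfl⟩ := hall s v hs hsw
    obtain ⟨g, hg⟩ := unique_v (bcy k₁ y) (fun i => base1 y d t₁ i + corr1 d kc i)
      (d.w.map (algebraMap k k₁)) θ (r i) (vv i) v (hvind' i)
      ((hSolP _ _).2 ⟨hrw i, hsol i⟩) ((hSolP _ _).2 ⟨hsw, hs⟩)
    exact ⟨i, rfl, g, hg⟩
  · intro x
    obtain ⟨γ, rfl⟩ := hsurj x
    let σ : N ≃ₐ[k] N := γ.restrictScalars k
    have hσF : ∀ f : F, σ (algebraMap F N f) = algebraMap F N f := fun f => γ.commutes f
    refine ⟨σ, fun q => ?_, fun v => ?_, fun i => hπ2 γ i⟩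
    · have h1 : ξ (Sum.inl q) ^ d.e = algebraMap F N (algebraMap k₁ F (Ye q)) := by
        rw [← IsScalarTower.algebraMap_apply k₁ F N, hYe]
      rw [h1, hσF]
    · rcases v with u | i
      · have h1 : ξ (Sum.inr (Sum.inl u)) = algebraMap F N (algebraMap k₁ F t₁) := by
          rw [← IsScalarTower.algebraMap_apply k₁ F N, ht₁]
        rw [h1, hσF]
      · have h1 : ξ (Sum.inr (Sum.inr i)) = θ i := by rw [hθdef]
        rw [h1, hθF, hσF]

end geob

end Pool.Agent.H391R2.T4
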