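import Mathlib
import Pool.Agent.H391R2.T4.Sem
import Pool.Agent.H391R2.T4.GeoC
import Pool.Agent.H391R2.T4.Ari

set_option autoImplicit false

namespace Pool.Agent.H391R2.T4

open MvPolynomial

set_option linter.unusedSectionVars false

/-- Dual bases of a Galois extension. -/
theorem exists_dual (K L : Type) [Field K] [CharZero K] [Field L] [Algebra K L]
    [FiniteDimensional K L] [IsGalois K L] [Fintype (L ≃ₐ[K] L)] [DecidableEq (L ≃ₐ[K] L)] :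
    ∃ ω ω' : (L ≃ₐ[K] L) → L, ∀ γ γ' : L ≃ₐ[K] L,
      ∑ i, γ (ω i) * γ' (ω' i) = if γ = γ' then 1 else 0 := by
  have hcard : Fintype.card (Fin (Module.finrank K L)) = Fintype.card (L ≃ₐ[K] L) := by
    rw [Fintype.card_fin, ← Nat.card_eq_fintype_card, IsGalois.card_aut_eq_finrank]
  let b := (Module.finBasis K L).reindex (Fintype.equivOfCardEq hcard)
  let b' := (Algebra.traceForm K L).dualBasis (traceForm_nondegenerate K L) b
  have h1 : ∀ i j, Algebra.trace K L (b' i * b j) = if j = i then 1 else 0 := by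
    intro i j
    exact LinearMap.BilinForm.apply_dualBasis_left (traceForm_nondegenerate K L) b i j
  let A : Matrix (L ≃ₐ[K] L) (L ≃ₐ[K] L) L := Matrix.of fun γ j => γ (b j)
  let B : Matrix (L ≃ₐ[K] L) (L ≃ₐ[K] L) L := Matrix.of fun i γ => γ (b' i)
  have hBA : B * A = 1 := by
    ext i j
    rw [Matrix.mul_apply, Matrix.one_apply]
    have h2 := trace_eq_sum_automorphisms (K := K) (L := L) (b' i * b j)
    rw [h1] at h2
    simp only [map_mul] at h2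
    have h3 : ∑ γ, B i γ * A γ j = ∑ γ : L ≃ₐ[K] L, γ (b' i) * γ (b j) := rfl
    have h4 : (∑ γ : L ≃ₐ[K] L, γ (b' i) * γ (b j)) = algebraMap K L (if j = i then 1 else 0) := by
      rw [h2]
      refine Finset.sum_congr ?_ fun _ _ => rfl
      ext x
      simp only [Finset.mem_univ]
    rw [h3, h4]
    by_cases hij : i = j
    · subst hij
      simp
    · rw [if_neg hij, if_neg (fun e => hij e.symm), map_zero]
  have hAB : A * B = 1 := mul_eq_one_comm.1 hBA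
  refine ⟨b, b', fun γ γ' => ?_⟩
  have h2 := congrFun (congrFun hAB γ) γ'
  rw [Matrix.mul_apply, Matrix.one_apply] at h2
  exact h2

section par

variable {K L K₀ N : Type} [Field K] [CharZero K] [Field L] [Algebra K L]
  [FiniteDimensional K L] [IsGalois K L] [Fintype (L ≃ₐ[K] L)] [DecidableEq (L ≃ₐ[K] L)]
  [Field K₀] [Algebra K K₀] [Algebra L K₀]
  [IsScalarTower K L K₀] [IsAlgClosed K₀] [Algebra.IsAlgebraic L K₀]
  [Field N] [IsAlgClosed N] [Algebra K₀ N] [Algebra K N] [Algebra L N]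
  [IsScalarTower K K₀ N] [IsScalarTower L K₀ N] [IsScalarTower K L N]

/-- The new parameters. -/
noncomputable def eta (ω' : (L ≃ₐ[K] L) → L) (e : ℕ) {G W : Type}
    (ξ : ((L ≃ₐ[K] L) × G) ⊕ W → N) : ((L ≃ₐ[K] L) × G) ⊕ W → N :=
  Sum.elim (fun p => ∑ γ : L ≃ₐ[K] L, algebraMap L N (γ (ω' p.1)) * ξ (Sum.inl (γ, p.2)) ^ e)
    (fun w => ξ (Sum.inr w))

theorem eta_inv (ω ω' : (L ≃ₐ[K] L) → L) (hω : ∀ γ γ' : L ≃ₐ[K] L,
      ∑ i, γ (ω i) * γ' (ω' i) = if γ = γ' then 1 else 0) (e : ℕ) {G W : Type}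
    (ξ : ((L ≃ₐ[K] L) × G) ⊕ W → N) (γ : L ≃ₐ[K] L) (g : G) :
    ξ (Sum.inl (γ, g)) ^ e = ∑ i, algebraMap L N (γ (ω i)) * eta ω' e ξ (Sum.inl (i, g)) := by
  have h1 : ∑ i, algebraMap L N (γ (ω i)) * eta ω' e ξ (Sum.inl (i, g)) =
      ∑ i, ∑ γ' : L ≃ₐ[K] L, algebraMap L N (γ (ω i) * γ' (ω' i)) * ξ (Sum.inl (γ', g)) ^ e := by
    refine Finset.sum_congr rfl fun i _ => ?_
    change _ * (∑ γ' : L ≃ₐ[K] L, _) = _
    rw [Finset.mul_sum]
    refine Finset.sum_congr rfl fun γ' _ => ?_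
    rw [map_mul, mul_assoc]
  rw [h1, Finset.sum_comm]
  simp only [← Finset.sum_mul, ← map_sum, hω]
  rw [Finset.sum_eq_single γ]
  · rw [if_pos rfl, map_one, one_mul]
  · intro γ' _ hγ'
    rw [if_neg (fun e => hγ' e.symm), map_zero, zero_mul]
  · intro h
    exact absurd (Finset.mem_univ _) h

theorem eta_basis (ω ω' : (L ≃ₐ[K] L) → L) (hω : ∀ γ γ' : L ≃ₐ[K] L,
      ∑ i, γ (ω i) * γ' (ω' i) = if γ = γ' then 1 else 0) (e : ℕ) (he : 0 < e) {G W : Type}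
    [Finite G] [Finite W]
    (ξ : ((L ≃ₐ[K] L) × G) ⊕ W → N) (hξ : IsTranscendenceBasis K₀ ξ) :
    IsTranscendenceBasis K₀ (eta ω' e ξ) := by
  refine basis_of_alg le_rfl ξ hξ _ fun v => ?_
  have hmem : ∀ v, eta ω' e ξ v ∈ Algebra.adjoin K₀ (Set.range (eta ω' e ξ)) := fun v =>
    Algebra.subset_adjoin ⟨v, rfl⟩
  rcases v with ⟨γ, g⟩ | w
  · have h1 : ξ (Sum.inl (γ, g)) ^ e ∈ Algebra.adjoin K₀ (Set.range (eta ω' e ξ)) := by
      rw [eta_inv ω ω' hω]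
      refine sum_mem fun i _ => mul_mem ?_ (hmem _)
      rw [IsScalarTower.algebraMap_apply L K₀ N]
      exact Subalgebra.algebraMap_mem _ _
    have h2 : IsAlgebraic (Algebra.adjoin K₀ (Set.range (eta ω' e ξ)))
        (ξ (Sum.inl (γ, g)) ^ e) :=
      isAlgebraic_algebraMap (⟨_, h1⟩ : Algebra.adjoin K₀ (Set.range (eta ω' e ξ)))
    exact h2.of_pow he
  · exact isAlgebraic_algebraMap (⟨_, hmem (Sum.inr w)⟩ :
      Algebra.adjoin K₀ (Set.range (eta ω' e ξ)))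

theorem eta_act (ω ω' : (L ≃ₐ[K] L) → L) (hω : ∀ γ γ' : L ≃ₐ[K] L,
      ∑ i, γ (ω i) * γ' (ω' i) = if γ = γ' then 1 else 0) (e : ℕ) {G W : Type}
    (ξ : ((L ≃ₐ[K] L) × G) ⊕ W → N) (σ : N →+* N) (ρ : L ≃ₐ[K] L)
    (h1 : ∀ v, σ (eta ω' e ξ v) = eta ω' e ξ v)
    (h2 : ∀ a : L, σ (algebraMap L N a) = algebraMap L N (ρ a)) (γ : L ≃ₐ[K] L) (g : G) :
    σ (ξ (Sum.inl (γ, g))) ^ e = ξ (Sum.inl (ρ * γ, g)) ^ e := by
  rw [← map_pow, eta_inv ω ω' hω, eta_inv ω ω' hω, map_sum]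
  refine Finset.sum_congr rfl fun i _ => ?_
  rw [map_mul, h1, h2]
  rfl

theorem eta_fix (ω' : (L ≃ₐ[K] L) → L) (e : ℕ) {G W : Type}
    (ξ : ((L ≃ₐ[K] L) × G) ⊕ W → N) (σ : N ≃ₐ[K₀] N)
    (h1 : ∀ q, σ (ξ (Sum.inl q) ^ e) = ξ (Sum.inl q) ^ e)
    (h2 : ∀ v, σ (ξ (Sum.inr v)) = ξ (Sum.inr v)) (v : ((L ≃ₐ[K] L) × G) ⊕ W) :
    σ (eta ω' e ξ v) = eta ω' e ξ v := by
  rcases v with p | w
  · change σ (∑ γ : L ≃ₐ[K] L, _) = ∑ γ : L ≃ₐ[K] L, _
    rw [map_sum]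
    refine Finset.sum_congr rfl fun γ _ => ?_
    rw [map_mul, h1, IsScalarTower.algebraMap_apply L K₀ N, σ.commutes]
  · exact h2 w

open Classical in
/-- The core theorem: regular solutions over a field of rational functions. -/
theorem wreath_core {G : Type} [Group G] [Fintype G] (φ : (L ≃ₐ[K] L) →* MulAut G) {J : ℕ}
    (y : MvPolynomial G K₀) [YData y] (hG3 : 3 ≤ Fintype.card G)
    (d : Dat K₀ G ((L ≃ₐ[K] L) × G) (Fin J)) (h : GD y d)
    (Ψ : Polynomial (MvPolynomial (Fin (Fintype.card G)) K₀)) (hm : Ψ.Monic)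
    (hΨ : Ψ.map ((aeval fun i : Fin (Fintype.card G) => esymm G K₀ (i + 1) :
      MvPolynomial (Fin (Fintype.card G)) K₀ →ₐ[K₀] MvPolynomial G K₀) :
      MvPolynomial (Fin (Fintype.card G)) K₀ →+* MvPolynomial G K₀) =
      ∏ q ∈ orb y, (Polynomial.X - Polynomial.C q))
    (T : ℕ) (hT : ∀ e, (Ψ.coeff e).totalDegree ≤ T)
    (hsep : (Polynomial.C d.c * d.R * ∏ q ∈ (orb y).erase y,
      (Polynomial.C d.c * (Polynomial.X ^ 2 * d.R) -
      Polynomial.C (aeval d.l q - aeval d.l y))).Separable)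
    (M : ℕ) (hJM : J + 1 < M) (hB : T * (J + 1) < M) (hM : 2 + d.R.natDegree = M) (n : ℕ)
    (hn : 3 ≤ n) (hdeg : Ψ.natDegree * M = n + J)
    (hSI : ∀ (f : K₀ ≃ₐ[K] K₀) (ρ : L ≃ₐ[K] L),
      (∀ a, f (algebraMap L K₀ a) = algebraMap L K₀ (ρ a)) →
      SI (f : K₀ →+* K₀) (φ ρ) (Equiv.prodCongr (Equiv.mulLeft ρ) (Equiv.refl G)) y d)
    (ξ : ((L ≃ₐ[K] L) × G) ⊕ (Unit ⊕ (Option (Fin (Fintype.card G)) ⊕
      Option (Fin (Fintype.card G)))) → N)
    (hξ : IsTranscendenceBasis K₀ ξ) :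
    ∃ (E : Type) (_ : Field E) (_ : Algebra (MvPolynomial (((L ≃ₐ[K] L) × G) ⊕ (Unit ⊕
        (Option (Fin (Fintype.card G)) ⊕ Option (Fin (Fintype.card G))))) K) E)
      (_ : IsFractionRing (MvPolynomial (((L ≃ₐ[K] L) × G) ⊕ (Unit ⊕
        (Option (Fin (Fintype.card G)) ⊕ Option (Fin (Fintype.card G))))) K) E) (_ : Algebra K E)
      (_ : IsScalarTower K (MvPolynomial (((L ≃ₐ[K] L) × G) ⊕ (Unit ⊕
        (Option (Fin (Fintype.card G)) ⊕ Option (Fin (Fintype.card G))))) K) E)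
      (F : Type) (_ : Field F) (_ : Algebra E F) (_ : Algebra L F) (_ : Algebra K F)
      (_ : IsScalarTower K E F) (_ : IsScalarTower K L F) (_ : FiniteDimensional E F)
      (_ : IsGalois E F) (γ : (F ≃ₐ[E] F) ≃* EG φ n),
      (∀ (σ : F ≃ₐ[E] F) (x : L), σ (algebraMap L F x) = algebraMap L F ((γ σ).right x)) ∧
      (∀ y : F, IsAlgebraic L y → y ∈ Set.range (algebraMap L F)) := by
  have hcK₀ : CharZero K₀ := charZero_of_injective_algebraMap (algebraMap K K₀).injective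
  obtain ⟨r, vv, hr, hrw, hsol, hvinj, hall, hgeo⟩ := geo3 y hG3 d h Ψ hm hΨ T hT hsep M hJM hB hM
    n hn hdeg ξ hξ
  obtain ⟨ω, ω', hω⟩ := exists_dual K L
  have halgKK₀ : Algebra.IsAlgebraic K K₀ := Algebra.IsAlgebraic.trans K L K₀
  have hnK₀ : Normal K K₀ := by
    have : IsAlgClosure K K₀ := ⟨inferInstance, halgKK₀⟩
    exact IsAlgClosure.normal K K₀
  have hξ0 : ∀ q, ξ (Sum.inl q) ≠ 0 := fun q h0 =>
    hξ.1.transcendental (Sum.inl q) (by rw [h0]; exact isAlgebraic_zero)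
  refine arith_abs _ (eta ω' d.e ξ) (eta_basis ω ω' hω d.e h.he0 ξ hξ) G φ n r hr vv hvinj ?_ ?_
  · intro σ ρ hσ1 hσ2
    let f : K₀ ≃ₐ[K] K₀ := σ.restrictNormal K₀
    have hf : ∀ a : K₀, σ (algebraMap K₀ N a) = algebraMap K₀ N (f a) := fun a =>
      (AlgEquiv.restrictNormal_commutes σ K₀ a).symm
    have hfρ : ∀ a, f (algebraMap L K₀ a) = algebraMap L K₀ (ρ a) := by
      intro a
      apply (algebraMap K₀ N).injective
      rw [← hf, ← IsScalarTower.algebraMap_apply L K₀ N, hσ2, ← IsScalarTower.algebraMap_apply]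
    have h1 : ∀ i, ∃ i', σ (r i) = r i' ∧ ∃ g, (fun x => σ (vv i ((φ ρ)⁻¹ x))) =
        vv i' ∘ Equiv.mulLeft g := by
      intro i
      obtain ⟨h2, h3⟩ := SolP_si (hSI f ρ hfρ) h (σ : N →+* N) hf ξ hξ0
        (fun q => eta_act ω ω' hω d.e ξ (σ : N →+* N) ρ hσ1 hσ2 q.1 q.2)
        (fun v => hσ1 (Sum.inr v)) (r i) (vv i) (hsol i) (hrw i)
      exact hall _ _ h2 h3
    choose p hp g hg using h1
    have hpinj : Function.Injective p := by
      intro i j hij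
      apply hr
      apply σ.injective
      rw [hp, hp, hij]
    let π : Equiv.Perm (Fin n) := Equiv.ofBijective p (Finite.injective_iff_bijective.1 hpinj)
    refine ⟨⟨fun j => g (π.symm j), π⟩, fun i => ⟨hp i, fun x => ?_⟩⟩
    change σ (vv i x) = vv (π i) (g (π.symm (π i)) * φ ρ x)
    rw [Equiv.symm_apply_apply]
    have h2 := congrFun (hg i) (φ ρ x)
    have h3 : (φ ρ)⁻¹ (φ ρ x) = x := (φ ρ).symm_apply_apply x
    simp only [h3] at h2
    exact h2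
  · intro x
    obtain ⟨σ, hσ1, hσ2, hσ3⟩ := hgeo x
    exact ⟨σ, eta_fix ω' d.e ξ σ hσ1 hσ2, hσ3⟩

end par

end Pool.Agent.H391R2.T4
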