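import Mathlib
import Pool.Agent.H391R2.T4.Par

set_option autoImplicit false

namespace Pool.Agent.H391R2.T4

open MvPolynomial

set_option linter.unusedSectionVars false

section elts

variable (K L : Type) [Field K] [CharZero K] [Field L] [Algebra K L]
  [FiniteDimensional K L] [IsGalois K L]

/-- An element with trivial stabiliser. -/
theorem exists_prim : ∃ θ : L, ∀ ρ ρ' : L ≃ₐ[K] L, (∃ c : K, ρ θ - ρ' θ = algebraMap K L c) →
    ρ = ρ' := by
  obtain ⟨θ, hθ⟩ := Field.exists_primitive_element K L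
  have h0 : ∀ ρ : L ≃ₐ[K] L, ρ θ = θ → ρ = 1 := by
    intro ρ h
    have h1 : (⊤ : IntermediateField K L) ≤ eqF (ρ : L →ₐ[K] L) (AlgHom.id K L) := by
      rw [← hθ, IntermediateField.adjoin_le_iff]
      rintro _ rfl
      exact h
    apply AlgEquiv.ext
    intro x
    exact h1 (IntermediateField.mem_top (x := x))
  have hcL : CharZero L := charZero_of_injective_algebraMap (algebraMap K L).injective
  have h1 : ∀ (ρ : L ≃ₐ[K] L) (c : K), ρ θ - θ = algebraMap K L c → ρ = 1 := by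
    intro ρ c hc
    have h2 : ∀ n : ℕ, (ρ ^ n) θ = θ + algebraMap K L (n * c) := by
      intro n
      induction n with
      | zero => simp
      | succ n ih =>
        rw [pow_succ', AlgEquiv.mul_apply, ih, map_add, ρ.commutes]
        have h3 : ρ θ = θ + algebraMap K L c := by rw [← hc]; ring
        rw [h3]
        simp only [Nat.cast_add, Nat.cast_one, map_add, map_mul, map_natCast, add_mul, one_mul]
        ring
    have h3 := h2 (orderOf ρ)
    rw [pow_orderOf_eq_one] at h3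
    have h4 : algebraMap K L (orderOf ρ * c) = 0 := by
      have h5 : (1 : L ≃ₐ[K] L) θ = θ := rfl
      rw [h5] at h3
      exact (add_eq_left.1 h3.symm)
    have h5 : (orderOf ρ : K) * c = 0 := (map_eq_zero_iff _ (algebraMap K L).injective).1 h4
    have h6 : c = 0 := by
      rcases mul_eq_zero.1 h5 with h6 | h6
      · exfalso
        have := orderOf_pos ρ
        exact this.ne' (by exact_mod_cast h6)
      · exact h6
    apply h0
    rw [h6, map_zero, sub_eq_zero] at hc
    exact hc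
  refine ⟨θ, fun ρ ρ' h => ?_⟩
  obtain ⟨c, hc⟩ := h
  have h2 := h1 (ρ'⁻¹ * ρ) c (by
    have h3 : (ρ'⁻¹ * ρ) θ - θ = ρ'⁻¹ (ρ θ - ρ' θ) := by
      rw [map_sub]
      have h4 : ρ'⁻¹ (ρ' θ) = θ := by
        change (ρ'⁻¹ * ρ') θ = θ
        rw [inv_mul_cancel]
        rfl
      rw [h4]
      rfl
    rw [h3, hc]
    exact (ρ'⁻¹).commutes c)
  rw [inv_mul_eq_one] at h2
  exact h2.symm

/-- An element whose stabiliser is the kernel of a homomorphism. -/
theorem exists_ker_elt {A : Type} [Group A] (φ : (L ≃ₐ[K] L) →* A) :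
    ∃ b : L, b ≠ 0 ∧ ∀ ρ : L ≃ₐ[K] L, ρ b = b ↔ φ ρ = 1 := by
  obtain ⟨b, hb⟩ := Field.exists_primitive_element K (IntermediateField.fixedField φ.ker)
  have h1 : ∀ ρ : L ≃ₐ[K] L, ρ (b : L) = b ↔ φ ρ = 1 := by
    intro ρ
    constructor
    · intro h
      have h2 : ρ ∈ (IntermediateField.fixedField φ.ker).fixingSubgroup := by
        rw [IntermediateField.mem_fixingSubgroup_iff]
        intro x hx
        let E := IntermediateField.fixedField φ.ker
        have h3 : (⊤ : IntermediateField K E) ≤ eqF ((ρ : L →ₐ[K] L).comp E.val) E.val := by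
          rw [← hb, IntermediateField.adjoin_le_iff]
          rintro _ rfl
          exact h
        exact h3 (IntermediateField.mem_top (x := (⟨x, hx⟩ : E)))
      rw [IntermediateField.fixingSubgroup_fixedField] at h2
      exact h2
    · intro h
      exact b.2 ⟨ρ, h⟩
  by_cases hb0 : (b : L) = 0
  · refine ⟨1, one_ne_zero, fun ρ => ⟨fun _ => (h1 ρ).1 (by rw [hb0, map_zero]), fun _ =>
      map_one ρ⟩⟩
  · exact ⟨b, hb0, h1⟩

end elts

section ypoly

variable {K L K₀ : Type} [Field K] [CharZero K] [Field L] [Algebra K L]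
  [FiniteDimensional K L] [IsGalois K L] [Fintype (L ≃ₐ[K] L)]
  [Field K₀] [Algebra K K₀] [Algebra L K₀] [IsScalarTower K L K₀]
  {G : Type} [Group G] [Fintype G]

/-- The exponent vector. -/
noncomputable def mu (G : Type) [Fintype G] : G →₀ ℕ :=
  Finsupp.equivFunOnFinite.symm (fun g => (Fintype.equivFin G g : ℕ))

theorem mu_inj (G : Type) [Fintype G] : Function.Injective (mu G) := by
  intro a b h
  exact (Fintype.equivFin G).injective (Fin.val_injective h)

/-- The polynomial. -/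
noncomputable def yp (K₀ : Type) [Field K₀] [Algebra L K₀] (φ : (L ≃ₐ[K] L) →* MulAut G)
    (b : L) : MvPolynomial G K₀ :=
  ∑ ρ : L ≃ₐ[K] L, ∑ g : G, C (algebraMap L K₀ (ρ b)) *
    rename (fun x => g * φ ρ x) (monomial (mu G) (1 : K₀))

theorem yp_si (φ : (L ≃ₐ[K] L) →* MulAut G) (b : L) (f : K₀ →+* K₀) (ρ : L ≃ₐ[K] L)
    (hf : ∀ a, f (algebraMap L K₀ a) = algebraMap L K₀ (ρ a)) :
    rename (φ ρ) (MvPolynomial.map f (yp K₀ φ b)) = yp K₀ φ b := by
  unfold yp
  rw [map_sum, map_sum]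
  conv_rhs => rw [← Equiv.sum_comp (Equiv.mulLeft ρ)]
  refine Finset.sum_congr rfl fun ρ' _ => ?_
  rw [map_sum, map_sum]
  conv_rhs => rw [← Equiv.sum_comp (φ ρ).toEquiv]
  refine Finset.sum_congr rfl fun g _ => ?_
  rw [map_mul, map_C, hf, map_mul, rename_C, MvPolynomial.map_rename, rename_rename, map_monomial,
    map_one]
  congr 3
  funext x
  change φ ρ (g * φ ρ' x) = φ ρ g * φ (ρ * ρ') x
  rw [map_mul, map_mul]
  rfl

theorem yp_inv (φ : (L ≃ₐ[K] L) →* MulAut G) (b : L) (h : G) :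
    rename (Equiv.mulLeft h) (yp K₀ φ b) = yp K₀ φ b := by
  unfold yp
  rw [map_sum]
  refine Finset.sum_congr rfl fun ρ' _ => ?_
  rw [map_sum]
  conv_rhs => rw [← Equiv.sum_comp (Equiv.mulLeft h)]
  refine Finset.sum_congr rfl fun g _ => ?_
  rw [map_mul, rename_C, rename_rename]
  congr 3
  funext x
  change h * (g * φ ρ' x) = h * g * φ ρ' x
  rw [mul_assoc]

open Classical in
theorem yp_coeff (φ : (L ≃ₐ[K] L) →* MulAut G) (b : L) (π : Equiv.Perm G) :
    coeff (Finsupp.mapDomain π (mu G)) (yp K₀ φ b) =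
      ∑ ρ : L ≃ₐ[K] L, ∑ g : G, if (fun x => g * φ ρ x) = π then algebraMap L K₀ (ρ b) else 0 := by
  unfold yp
  rw [coeff_sum]
  refine Finset.sum_congr rfl fun ρ _ => ?_
  rw [coeff_sum]
  refine Finset.sum_congr rfl fun g _ => ?_
  rw [coeff_C_mul, rename_monomial, coeff_monomial]
  by_cases h : (fun x => g * φ ρ x) = π
  · rw [if_pos h, if_pos (by rw [h]), mul_one]
  · rw [if_neg h, if_neg, mul_zero]
    intro h1
    apply h
    have hinj : Function.Injective (fun x => g * φ ρ x) := fun a c hac =>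
      (φ ρ).injective (mul_left_cancel hac)
    funext x
    have h2 := DFunLike.congr_fun h1 (g * φ ρ x)
    have h3 : Finsupp.mapDomain (fun x => g * φ ρ x) (mu G) (g * φ ρ x) = mu G x :=
      Finsupp.mapDomain_apply hinj _ x
    rw [h3] at h2
    obtain ⟨z, hz⟩ := π.surjective (g * φ ρ x)
    rw [← hz, Finsupp.mapDomain_apply π.injective] at h2
    have h4 : x = z := mu_inj G h2
    change g * φ ρ x = π x
    rw [← hz, h4]

theorem yp_stab [CharZero K₀] (φ : (L ≃ₐ[K] L) →* MulAut G) (b : L) (hb0 : b ≠ 0)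
    (hb : ∀ ρ : L ≃ₐ[K] L, ρ b = b ↔ φ ρ = 1) (π : Equiv.Perm G)
    (h : rename π (yp K₀ φ b) = yp K₀ φ b) : ∃ g : G, π = Equiv.mulLeft g := by
  classical
  have h1 : coeff (mu G) (yp K₀ φ b) = coeff (Finsupp.mapDomain π (mu G)) (yp K₀ φ b) := by
    nth_rewrite 2 [← h]
    exact (coeff_rename_mapDomain π π.injective _ _).symm
  -- the general coefficient
  have h2 : ∀ (ρ₀ : L ≃ₐ[K] L) (g₀ : G) (σ : Equiv.Perm G), (fun x => g₀ * φ ρ₀ x) = σ →
      coeff (Finsupp.mapDomain σ (mu G)) (yp K₀ φ b) =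
        (Fintype.card φ.ker : K₀) * algebraMap L K₀ (ρ₀ b) := by
    intro ρ₀ g₀ σ hσ
    rw [yp_coeff]
    have h3 : ∀ (ρ : L ≃ₐ[K] L) (g : G), (fun x => g * φ ρ x) = σ ↔ g = g₀ ∧ ρ₀⁻¹ * ρ ∈ φ.ker := by
      intro ρ g
      rw [← hσ]
      constructor
      · intro h4
        have h5 := congrFun h4 1
        simp only [map_one, mul_one] at h5
        refine ⟨h5, ?_⟩
        rw [MonoidHom.mem_ker, map_mul, map_inv, inv_mul_eq_one]
        apply MulEquiv.ext
        intro x
        have h6 := congrFun h4 x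
        simp only [h5] at h6
        exact (mul_left_cancel h6).symm
      · rintro ⟨rfl, h4⟩
        rw [MonoidHom.mem_ker, map_mul, map_inv, inv_mul_eq_one] at h4
        rw [h4]
    have h4 : ∀ ρ : L ≃ₐ[K] L, (∑ g : G, if (fun x => g * φ ρ x) = σ then
        algebraMap L K₀ (ρ b) else 0) = if ρ₀⁻¹ * ρ ∈ φ.ker then algebraMap L K₀ (ρ₀ b) else 0 := by
      intro ρ
      rw [Finset.sum_eq_single g₀]
      · by_cases h5 : ρ₀⁻¹ * ρ ∈ φ.ker
        · rw [if_pos ((h3 ρ g₀).2 ⟨rfl, h5⟩), if_pos h5]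
          have h6 : (ρ₀⁻¹ * ρ) b = b := (hb _).2 h5
          congr 1
          have h7 : ρ b = ρ₀ ((ρ₀⁻¹ * ρ) b) := by
            change ρ b = (ρ₀ * (ρ₀⁻¹ * ρ)) b
            rw [mul_inv_cancel_left]
          rw [h7, h6]
        · rw [if_neg (fun h6 => h5 ((h3 ρ g₀).1 h6).2), if_neg h5]
      · intro g _ hg
        rw [if_neg (fun h6 => hg ((h3 ρ g).1 h6).1)]
      · intro h5
        exact absurd (Finset.mem_univ _) h5
    simp only [h4]
    rw [← Equiv.sum_comp (Equiv.mulLeft ρ₀)]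
    simp only [Equiv.coe_mulLeft, inv_mul_cancel_left]
    rw [← Finset.sum_filter, Finset.sum_const, nsmul_eq_mul]
    congr 2
    rw [Fintype.card_subtype]
  have h3 := h2 1 1 1 (by
    funext x
    simp)
  have h4 : Finsupp.mapDomain (1 : Equiv.Perm G) (mu G) = mu G := by
    rw [Equiv.Perm.coe_one]
    exact Finsupp.mapDomain_id
  rw [h4] at h3
  have hcard : (Fintype.card φ.ker : K₀) ≠ 0 := by
    have : Fintype.card φ.ker ≠ 0 := Fintype.card_ne_zero
    exact_mod_cast this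
  have h5 : coeff (mu G) (yp K₀ φ b) ≠ 0 := by
    rw [h3]
    refine mul_ne_zero hcard ?_
    rw [_root_.map_ne_zero]
    exact hb0
  -- a representative
  have h6 : ∃ (ρ : L ≃ₐ[K] L) (g : G), (fun x => g * φ ρ x) = π := by
    by_contra hne
    push Not at hne
    apply h5
    rw [h1, yp_coeff]
    exact Finset.sum_eq_zero fun ρ _ => Finset.sum_eq_zero fun g _ => if_neg (hne ρ g)
  obtain ⟨ρ, g, hρg⟩ := h6
  have h7 := h2 ρ g π hρg
  rw [← h1, h3] at h7
  have h8 : ρ b = b := by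
    have h9 := mul_left_cancel₀ hcard h7
    exact ((algebraMap L K₀).injective h9).symm
  have h9 : φ ρ = 1 := (hb ρ).1 h8
  refine ⟨g, ?_⟩
  apply Equiv.ext
  intro x
  have h10 := congrFun hρg x
  rw [← h10, h9]
  rfl

theorem yp_data [CharZero K₀] (φ : (L ≃ₐ[K] L) →* MulAut G) (b : L) (hb0 : b ≠ 0)
    (hb : ∀ ρ : L ≃ₐ[K] L, ρ b = b ↔ φ ρ = 1) : YData (yp K₀ φ b) :=
  ⟨yp_inv φ b, yp_stab φ b hb0 hb⟩

end ypoly

end Pool.Agent.H391R2.T4
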