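import Mathlib
import Pool.Agent.H391R2.FnD
import Pool.Agent.H391R2.NtD
import Pool.Agent.H391R2.T4.Dt3
import Pool.Agent.H391R2.T4.Blueprint
import Pool.Agent.H81R2.BT.TaskA

set_option autoImplicit false

namespace Pool.Agent.H391R2.T4

set_option linter.unusedSectionVars false

/-- A regular solution over `K(t)` of an embedding problem, as in the frozen statement S01167. -/
def RegSol (K L G : Type) [Field K] [Field L] [Algebra K L] [Group G]
    (α : G →* (L ≃ₐ[K] L)) : Prop :=
  ∃ (F : Type) (_ : Field F) (_ : Algebra (RatFunc K) F) (_ : Algebra L F)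
    (_ : Algebra K F) (_ : IsScalarTower K (RatFunc K) F) (_ : IsScalarTower K L F)
    (_ : FiniteDimensional (RatFunc K) F) (_ : IsGalois (RatFunc K) F)
    (γ : (F ≃ₐ[RatFunc K] F) ≃* G),
    (∀ (σ : F ≃ₐ[RatFunc K] F) (x : L),
        σ (algebraMap L F x) = algebraMap L F (α (γ σ) x)) ∧
    ∀ y : F, IsAlgebraic L y → y ∈ Set.range (algebraMap L F)

instance finite_wr (G : Type) [Group G] [Finite G] (n : ℕ) : Finite (Wr G n) :=
  Finite.of_equiv _ SemidirectProduct.equivProd.symm

instance finite_eg {Γ G : Type} [Group Γ] [Group G] [Finite Γ] [Finite G] (φ : Γ →* MulAut G)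
    (n : ℕ) : Finite (EG φ n) :=
  Finite.of_equiv _ SemidirectProduct.equivProd.symm

section quot

variable {K L L' G G' : Type} [Field K] [CharZero K] [Field L] [Algebra K L]
  [FiniteDimensional K L] [IsGalois K L] [Field L'] [Algebra K L'] [FiniteDimensional K L']
  [IsGalois K L'] [Algebra L L'] [IsScalarTower K L L'] [Group G] [Group G']

/-- Quotients of regular solutions. -/
theorem RegSol.quot (α : G →* (L ≃ₐ[K] L)) (α' : G' →* (L' ≃ₐ[K] L')) (f : G' →* G)
    (hf : Function.Surjective f)
    (hα : ∀ g', α (f g') = (α' g').restrictNormal L)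
    (hk : ∀ ρ : L' ≃ₐ[K] L', ρ.restrictNormal L = 1 → ∃ g', f g' = 1 ∧ α' g' = ρ)
    (h : RegSol K L' G' α') : RegSol K L G α := by
  obtain ⟨F', i1, i2, i3, i4, i5, i6, i7, i8, γ', hγ1, hγ2⟩ := h
  let Nf : Subgroup (F' ≃ₐ[RatFunc K] F') := (f.comp γ'.toMonoidHom).ker
  let F := IntermediateField.fixedField Nf
  have hgal : IsGalois (RatFunc K) F := IsGalois.of_fixedField_normal_subgroup Nf
  have hLF : ∀ x : L, algebraMap L' F' (algebraMap L L' x) ∈ F := by
    rintro x ⟨σ, hσ⟩
    change σ (algebraMap L' F' (algebraMap L L' x)) = _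
    rw [hγ1]
    congr 1
    have h1 := AlgEquiv.restrictNormal_commutes (α' (γ' σ)) L x
    rw [← h1, ← hα]
    have h2 : f (γ' σ) = 1 := hσ
    rw [h2, map_one]
    rfl
  let _ : Algebra L F := (((algebraMap L' F').comp (algebraMap L L')).codRestrict F hLF).toAlgebra
  let _ : Algebra K F := ((algebraMap (RatFunc K) F).comp (algebraMap K (RatFunc K))).toAlgebra
  have hT1 : IsScalarTower K (RatFunc K) F := IsScalarTower.of_algebraMap_eq fun x => rfl
  have hT2 : IsScalarTower K L F := IsScalarTower.of_algebraMap_eq fun x => by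
    apply Subtype.ext
    change algebraMap (RatFunc K) F' (algebraMap K (RatFunc K) x) =
      algebraMap L' F' (algebraMap L L' (algebraMap K L x))
    rw [← IsScalarTower.algebraMap_apply K (RatFunc K) F', ← IsScalarTower.algebraMap_apply K L L',
      ← IsScalarTower.algebraMap_apply K L' F']
  have hker : (AlgEquiv.restrictNormalHom (F := RatFunc K) (K₁ := F') F).ker =
      (f.comp γ'.toMonoidHom).ker := by
    ext σ
    rw [MonoidHom.mem_ker]
    constructor
    · intro h
      have h1 : σ ∈ F.fixingSubgroup := by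
        rw [IntermediateField.mem_fixingSubgroup_iff]
        intro x hx
        have h2 := AlgEquiv.restrictNormal_commutes σ F (⟨x, hx⟩ : F)
        have h3 : σ.restrictNormal F = 1 := h
        rw [h3] at h2
        exact h2.symm
      rw [IntermediateField.fixingSubgroup_fixedField] at h1
      exact h1
    · intro h
      apply AlgEquiv.ext
      intro x
      apply Subtype.ext
      have h1 := AlgEquiv.restrictNormal_commutes σ F x
      exact h1.trans (x.2 ⟨σ, h⟩)
  obtain ⟨γ, hγ⟩ := exists_equiv_of_ker (AlgEquiv.restrictNormalHom (F := RatFunc K) (K₁ := F') F)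
    (f.comp γ'.toMonoidHom) (AlgEquiv.restrictNormalHom_surjective F')
    (hf.comp γ'.surjective) hker
  refine ⟨F, inferInstance, inferInstance, inferInstance, inferInstance, hT1, hT2, inferInstance,
    hgal, γ, ?_, ?_⟩
  · intro σ' x
    obtain ⟨σ, rfl⟩ := AlgEquiv.restrictNormalHom_surjective (F := RatFunc K) (K₁ := F) F' σ'
    rw [hγ]
    apply Subtype.ext
    have h1 := AlgEquiv.restrictNormal_commutes σ F (algebraMap L F x)
    refine h1.trans ?_
    change σ (algebraMap L' F' (algebraMap L L' x)) = algebraMap L' F' (algebraMap L L'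
      (α (f (γ' σ)) x))
    rw [hγ1, hα, AlgEquiv.restrictNormal_commutes]
  · intro y hy
    let _ : Algebra L F' := ((algebraMap L' F').comp (algebraMap L L')).toAlgebra
    have hT3 : IsScalarTower L F F' := IsScalarTower.of_algebraMap_eq fun x => rfl
    have hT4 : IsScalarTower L L' F' := IsScalarTower.of_algebraMap_eq fun x => rfl
    have h1 : IsAlgebraic L (y : F') := hy.algebraMap (A := F')
    have h2 : IsAlgebraic L' (y : F') := h1.tower_top L'
    obtain ⟨z, hz⟩ := hγ2 _ h2
    have hfd : FiniteDimensional L L' := Module.Finite.of_restrictScalars_finite K L L'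
    have hgal' : IsGalois L L' := IsGalois.tower_top_of_isGalois K L L'
    have hzbot : z ∈ (⊥ : IntermediateField L L') := by
      rw [IsGalois.mem_bot_iff_fixed]
      intro g
      obtain ⟨g', hg1, hg2⟩ := hk (g.restrictScalars K) (by
        apply AlgEquiv.ext
        intro x
        apply (algebraMap L L').injective
        rw [AlgEquiv.restrictNormal_commutes]
        exact g.commutes x)
      have h3 : γ'.symm g' ∈ Nf := by
        rw [MonoidHom.mem_ker]
        change f (γ' (γ'.symm g')) = 1
        rw [MulEquiv.apply_symm_apply, hg1]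
      have h4 : (γ'.symm g') (y : F') = y := y.2 ⟨_, h3⟩
      rw [← hz, hγ1, MulEquiv.apply_symm_apply, hg2] at h4
      exact (algebraMap L' F').injective h4
    obtain ⟨x, hx⟩ := IntermediateField.mem_bot.1 hzbot
    refine ⟨x, ?_⟩
    apply Subtype.ext
    change algebraMap L' F' (algebraMap L L' x) = y
    rw [hx, hz]

end quot


section big

/-- Adjoining a root of unity to a Galois extension. -/
theorem exists_root_ext (K L : Type) [Field K] [CharZero K] [Field L] [Algebra K L]
    [FiniteDimensional K L] [IsGalois K L] (e : ℕ) (he : e ≠ 0) :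
    ∃ (L' : Type) (_ : Field L') (_ : Algebra K L') (_ : FiniteDimensional K L')
      (_ : IsGalois K L') (_ : Algebra L L') (_ : IsScalarTower K L L') (ζ : L'),
      IsPrimitiveRoot ζ e := by
  classical
  let Ω := AlgebraicClosure L
  have hcL : CharZero L := charZero_of_injective_algebraMap (algebraMap K L).injective
  have hcΩ : CharZero Ω := charZero_of_injective_algebraMap (algebraMap L Ω).injective
  have : NeZero e := ⟨he⟩
  obtain ⟨ζ, hζ⟩ := HasEnoughRootsOfUnity.exists_primitiveRoot Ω e
  let b := Module.finBasis K L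
  let S : Finset Ω := insert ζ (Finset.univ.image fun q => algebraMap L Ω (b q))
  have hΩ : Algebra.IsAlgebraic K Ω := Algebra.IsAlgebraic.trans K L Ω
  obtain ⟨L', i1, i2, i3, i4, j, hj⟩ := exists_galois' (F := K) S
    (fun x _ => (hΩ.isAlgebraic x).isIntegral)
  obtain ⟨ζ', hζ'⟩ := hj ζ (Finset.mem_insert_self _ _)
  have hLr : ∀ x : L, algebraMap L Ω x ∈ j.range := by
    intro x
    rw [← b.sum_repr x, map_sum]
    refine Subalgebra.sum_mem _ fun q _ => ?_
    rw [Algebra.smul_def, map_mul]
    refine mul_mem ?_ ?_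
    · rw [← IsScalarTower.algebraMap_apply K L Ω]
      exact Subalgebra.algebraMap_mem _ _
    · obtain ⟨z, hz⟩ := hj (algebraMap L Ω (b q)) (Finset.mem_insert_of_mem
        (Finset.mem_image_of_mem (fun q => algebraMap L Ω (b q)) (Finset.mem_univ q)))
      exact ⟨z, hz⟩
  let ι : L →ₐ[K] L' := ((AlgEquiv.ofInjective j j.injective).symm : j.range →ₐ[K] L').comp
    ((IsScalarTower.toAlgHom K L Ω).codRestrict j.range hLr)
  let _ : Algebra L L' := ι.toRingHom.toAlgebra
  have hT : IsScalarTower K L L' := IsScalarTower.of_algebraMap_eq fun x => (ι.commutes x).symm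
  refine ⟨L', i1, i2, i3, i4, inferInstance, hT, ζ', ?_⟩
  have h1 : IsPrimitiveRoot (j ζ') e := by rw [hζ']; exact hζ
  exact h1.of_map_of_injective j.injective

/-- The action extended by a trivial factor. -/
def phiC {Γ G : Type} [Group Γ] [Group G] (φ : Γ →* MulAut G) (C : Type) [Group C] :
    Γ →* MulAut (G × C) where
  toFun ρ := MulEquiv.prodCongr (φ ρ) (MulEquiv.refl C)
  map_one' := by
    apply MulEquiv.ext
    intro x
    rw [map_one]
    rfl
  map_mul' ρ ρ' := by
    apply MulEquiv.ext
    intro x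
    rw [map_mul]
    rfl

/-- **Main theorem.** -/
theorem reg_wreath (K L : Type) [Field K] [CharZero K] [Field L] [Algebra K L]
    [FiniteDimensional K L] [IsGalois K L] (G : Type) [Group G] [Finite G]
    (φ : (L ≃ₐ[K] L) →* MulAut G) : ∃ n₀ : ℕ, ∀ n ≥ n₀, 3 ≤ n ∧
      RegSol K L (EG φ n) SemidirectProduct.rightHom := by
  classical
  have := Fintype.ofFinite G
  let C := Multiplicative (ZMod 3)
  have hcard : 3 ≤ Fintype.card (G × C) := by
    rw [Fintype.card_prod, Fintype.card_multiplicative, ZMod.card]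
    have := Fintype.card_pos (α := G)
    omega
  obtain ⟨L', i1, i2, i3, i4, i5, i6, ζ, hζ⟩ := exists_root_ext K L (Monoid.exponent (G × C))
    Monoid.exponent_ne_zero_of_finite
  let res : (L' ≃ₐ[K] L') →* (L ≃ₐ[K] L) := AlgEquiv.restrictNormalHom L
  let φ' : (L' ≃ₐ[K] L') →* MulAut (G × C) := (phiC φ C).comp res
  obtain ⟨n₀, hn₀⟩ := wreath_many K L' (G × C) hcard φ' (Monoid.exponent (G × C))
    (Nat.pos_of_ne_zero Monoid.exponent_ne_zero_of_finite)
    (fun g => Monoid.pow_exponent_eq_one g) ζ hζ
  refine ⟨n₀, fun n hn => ?_⟩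
  obtain ⟨hn3, ι, hι, E, a1, a2, a3, a4, a5, F, b1, b2, b3, b4, b5, b6, b7, b8, γ, hγ1, hγ2⟩ :=
    hn₀ n hn
  refine ⟨hn3, ?_⟩
  have hreg : RegSol K L' (EG φ' n) SemidirectProduct.rightHom :=
    Pool.Agent.H81R2.BT.taskA K L' (EG φ' n) SemidirectProduct.rightHom ι E F γ hγ1 hγ2
  let f : EG φ' n →* EG φ n := SemidirectProduct.map (wrMap (MonoidHom.fst G C) n) res
    (fun ρ => by
      apply MonoidHom.ext
      intro x
      apply SemidirectProduct.ext
      · funext i
        rfl
      · rfl)
  refine hreg.quot SemidirectProduct.rightHom SemidirectProduct.rightHom f ?_ ?_ ?_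
  · intro z
    obtain ⟨x, hx⟩ := wrMap_surjective (MonoidHom.fst G C) n Prod.fst_surjective z.left
    obtain ⟨ρ, hρ⟩ := AlgEquiv.restrictNormalHom_surjective (F := K) (K₁ := L) L' z.right
    refine ⟨⟨x, ρ⟩, ?_⟩
    apply SemidirectProduct.ext
    · exact hx
    · exact hρ
  · intro g'
    rfl
  · intro ρ hρ
    refine ⟨⟨1, ρ⟩, ?_, rfl⟩
    apply SemidirectProduct.ext
    · exact map_one (wrMap (MonoidHom.fst G C) n)
    · exact hρ

end big

end Pool.Agent.H391R2.T4
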