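import Mathlib
import Pool.Agent.H391R2.T4.Red

set_option autoImplicit false

namespace Pool.Agent.H391R2.T4

section sym

variable {Γ E₀ : Type} [Group Γ] [Group E₀]

/-- The symmetric fibre power of a homomorphism `α : E₀ → Γ`. -/
def SymEP (α : E₀ →* Γ) (n : ℕ) : Subgroup (Wr E₀ n × Γ) where
  carrier := {p | ∀ i, α (p.1.left i) = p.2}
  one_mem' := fun i => map_one α
  mul_mem' := by
    intro a b ha hb i
    change α ((a.1 * b.1).left i) = a.2 * b.2
    rw [wr_mul_left, map_mul, ha, hb]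
  inv_mem' := by
    intro a ha i
    change α ((a.1⁻¹).left i) = a.2⁻¹
    rw [wr_inv_left, map_inv, ha]

/-- The projection. -/
def symProj (α : E₀ →* Γ) (n : ℕ) : SymEP α n →* Γ :=
  (MonoidHom.snd (Wr E₀ n) Γ).comp (SymEP α n).subtype

variable {Γ' : Type} [Group Γ'] (α : E₀ →* Γ) (res : Γ' →* Γ) (s : Γ' →* E₀)

/-- The action of `Γ'` on the kernel. -/
noncomputable def actS (α : E₀ →* Γ) (s : Γ' →* E₀) : Γ' →* MulAut α.ker :=
  MulAut.conjNormal.comp s

theorem actS_apply (ρ : Γ') (g : α.ker) : (actS α s ρ g : E₀) = s ρ * g * (s ρ)⁻¹ := by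
  exact MulAut.conjNormal_apply _ _

/-- The map from the wreath product with action. -/
noncomputable def symMap (hs : ∀ ρ, α (s ρ) = res ρ) (n : ℕ) :
    EG (actS α s) n →* SymEP α n where
  toFun z := ⟨(⟨fun i => (z.left.left i : E₀) * s z.right, z.left.right⟩, res z.right), by
    intro i
    change α ((z.left.left i : E₀) * s z.right) = res z.right
    rw [map_mul, hs]
    have h1 : α (z.left.left i : E₀) = 1 := (z.left.left i).2
    rw [h1, one_mul]⟩
  map_one' := by
    apply Subtype.ext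
    apply Prod.ext
    · apply SemidirectProduct.ext
      · funext i
        change ((1 : α.ker) : E₀) * s 1 = 1
        rw [map_one, mul_one]
        rfl
      · rfl
    · exact map_one res
  map_mul' z z' := by
    apply Subtype.ext
    apply Prod.ext
    · apply SemidirectProduct.ext
      · funext i
        change (((z * z').left.left i : α.ker) : E₀) * s (z.right * z'.right) =
          ((z.left.left i : E₀) * s z.right) *
            ((z'.left.left (z.left.right⁻¹ i) : E₀) * s z'.right)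
        rw [eg_mul_left, wr_mul_left, wrAct_left, Subgroup.coe_mul, actS_apply, map_mul]
        group
      · rfl
    · exact map_mul res _ _

theorem symMap_surjective (hs : ∀ ρ, α (s ρ) = res ρ) (hres : Function.Surjective res) (n : ℕ) :
    Function.Surjective (symMap α res s hs n) := by
  rintro ⟨⟨x, ρ⟩, hx⟩
  obtain ⟨ρ', rfl⟩ := hres ρ
  have h1 : ∀ i, x.left i * (s ρ')⁻¹ ∈ α.ker := by
    intro i
    rw [MonoidHom.mem_ker, map_mul, map_inv, hs]
    have h2 : α (x.left i) = res ρ' := hx i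
    rw [h2, mul_inv_cancel]
  refine ⟨⟨⟨fun i => ⟨_, h1 i⟩, x.right⟩, ρ'⟩, ?_⟩
  apply Subtype.ext
  apply Prod.ext
  · apply SemidirectProduct.ext
    · funext i
      change x.left i * (s ρ')⁻¹ * s ρ' = x.left i
      rw [inv_mul_cancel_right]
    · rfl
  · rfl

end sym

/-- Symmetric fibre powers of weakly solvable embedding problems have regular solutions. -/
theorem reg_sym (K L : Type) [Field K] [CharZero K] [Field L] [Algebra K L]
    [FiniteDimensional K L] [IsGalois K L] (E₀ : Type) [Group E₀] [Finite E₀]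
    (α : E₀ →* (L ≃ₐ[K] L))
    (hw : ∃ (L' : Type) (_ : Field L') (_ : Algebra K L') (_ : FiniteDimensional K L')
      (_ : IsGalois K L') (_ : Algebra L L') (_ : IsScalarTower K L L')
      (s : (L' ≃ₐ[K] L') →* E₀), ∀ ρ, α (s ρ) = ρ.restrictNormal L) :
    ∃ n₀ : ℕ, ∀ n ≥ n₀, 3 ≤ n ∧ RegSol K L (SymEP α n) (symProj α n) := by
  obtain ⟨L', i1, i2, i3, i4, i5, i6, s, hs⟩ := hw
  obtain ⟨n₀, hn₀⟩ := reg_wreath K L' α.ker (actS α s)
  refine ⟨n₀, fun n hn => ?_⟩
  obtain ⟨hn3, hreg⟩ := hn₀ n hn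
  refine ⟨hn3, ?_⟩
  let res : (L' ≃ₐ[K] L') →* (L ≃ₐ[K] L) := AlgEquiv.restrictNormalHom L
  have hs' : ∀ ρ, α (s ρ) = res ρ := hs
  refine hreg.quot (symProj α n) SemidirectProduct.rightHom (symMap α res s hs' n)
    (symMap_surjective α res s hs' (AlgEquiv.restrictNormalHom_surjective L') n)
    (fun g' => rfl) ?_
  intro ρ hρ
  have h1 : (s ρ)⁻¹ ∈ α.ker := by
    rw [MonoidHom.mem_ker, map_inv, hs, hρ, inv_one]
  refine ⟨⟨⟨fun i => ⟨_, h1⟩, 1⟩, ρ⟩, ?_, rfl⟩
  apply Subtype.ext
  apply Prod.ext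
  · apply SemidirectProduct.ext
    · funext i
      change (s ρ)⁻¹ * s ρ = 1
      rw [inv_mul_cancel]
    · rfl
  · exact hρ

end Pool.Agent.H391R2.T4
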