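import Mathlib
import Pool.Agent.H391R2.T4.Sym

set_option autoImplicit false

namespace Pool.Agent.H391R2.T4

set_option linter.unusedSectionVars false

/-- A (proper) solution over the extension `T` of `K` of the embedding problem given by a finite
Galois extension `L/K` and `α : E → Gal(L/K)`: a finite Galois extension `F/T` containing `L`
with an isomorphism `γ : Gal(F/T) → E` such that `α ∘ γ` is the restriction to `L`; if `reg`
holds, `L` is required to be algebraically closed in `F`. -/
def SolOver (K L E : Type) [Field K] [Field L] [Algebra K L] [Group E]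
    (α : E →* (L ≃ₐ[K] L)) (T : Type) [Field T] [Algebra K T] (reg : Prop) : Prop :=
  ∃ (F : Type) (_ : Field F) (_ : Algebra T F) (_ : Algebra L F)
    (_ : Algebra K F) (_ : IsScalarTower K T F) (_ : IsScalarTower K L F)
    (_ : FiniteDimensional T F) (_ : IsGalois T F)
    (γ : (F ≃ₐ[T] F) ≃* E),
    (∀ (σ : F ≃ₐ[T] F) (x : L),
        σ (algebraMap L F x) = algebraMap L F (α (γ σ) x)) ∧
    (reg → ∀ y : F, IsAlgebraic L y → y ∈ Set.range (algebraMap L F))

theorem regSol_iff (K L E : Type) [Field K] [Field L] [Algebra K L] [Group E]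
    (α : E →* (L ≃ₐ[K] L)) : RegSol K L E α ↔ SolOver K L E α (RatFunc K) True := by
  unfold RegSol SolOver
  simp only [forall_const]

section degn

variable {K L E k : Type} [Field K] [Field L] [Algebra K L] [Group E] [Finite E]
  (α : E →* (L ≃ₐ[K] L)) [Field k] [Algebra K k]

theorem sym_degree (n : ℕ) (i : Fin n) (reg : Prop)
    (h : SolOver K L (SymEP α n) (symProj α n) k reg) :
    ∃ (M : Type) (_ : Field M) (_ : Algebra k M) (_ : IsGalois k M)
      (ψ : (M ≃ₐ[k] M) ≃* Equiv.Perm (Fin n)) (_ : Algebra K M) (_ : IsScalarTower K k M),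
      SolOver K L E α (IntermediateField.fixedField
        ((MulAction.stabilizer (Equiv.Perm (Fin n)) i).comap ψ.toMonoidHom)) reg := by
  classical
  obtain ⟨N, i1, i2, i3, i4, i5, i6, i7, i8, γ, hγ, hreg⟩ := h
  -- projection to the symmetric group
  let ψ₀ : (N ≃ₐ[k] N) →* Equiv.Perm (Fin n) :=
    (SemidirectProduct.rightHom.comp ((MonoidHom.fst (Wr E n) (L ≃ₐ[K] L)).comp
      (SymEP α n).subtype)).comp γ.toMonoidHom
  have hψ₀ : ∀ σ, ψ₀ σ = (γ σ).1.1.right := fun σ => rfl
  have hsurj : Function.Surjective ψ₀ := by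
    intro ρ
    let x : SymEP α n := ⟨(⟨1, ρ⟩, 1), fun i => map_one α⟩
    refine ⟨γ.symm x, ?_⟩
    rw [hψ₀, MulEquiv.apply_symm_apply]
  let M := IntermediateField.fixedField ψ₀.ker
  let ψ : (M ≃ₐ[k] M) ≃* Equiv.Perm (Fin n) :=
    (IsGalois.normalAutEquivQuotient ψ₀.ker).symm.trans
      (QuotientGroup.quotientKerEquivOfSurjective ψ₀ hsurj)
  have hψ : ∀ σ : N ≃ₐ[k] N, ψ (AlgEquiv.restrictNormalHom M σ) = ψ₀ σ := by
    intro σ
    have h1 : AlgEquiv.restrictNormalHom M σ = IsGalois.normalAutEquivQuotient ψ₀.ker σ :=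
      (IsGalois.normalAutEquivQuotient_apply ψ₀.ker σ).symm
    simp only [ψ, MulEquiv.trans_apply]
    rw [h1, MulEquiv.symm_apply_apply]
    rfl
  let aKM : Algebra K M := ((algebraMap k M).comp (algebraMap K k)).toAlgebra
  have hTKkM : IsScalarTower K k M := IsScalarTower.of_algebraMap_eq fun x => rfl
  refine ⟨M, inferInstance, inferInstance, inferInstance, ψ, aKM, hTKkM, ?_⟩
  set T := IntermediateField.fixedField
    ((MulAction.stabilizer (Equiv.Perm (Fin n)) i).comap ψ.toMonoidHom) with hT
  have hgal : IsGalois T N := IsGalois.tower_top_of_isGalois k T N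
  have hfd' : FiniteDimensional T N := FiniteDimensional.right k T N
  have hfix : T.fixingSubgroup =
      (MulAction.stabilizer (Equiv.Perm (Fin n)) i).comap ψ.toMonoidHom :=
    IntermediateField.fixingSubgroup_fixedField _
  have hres : ∀ τ : N ≃ₐ[T] N, ψ₀ (τ.restrictScalars k) i = i := by
    intro τ
    rw [← hψ]
    have h1 : AlgEquiv.restrictNormalHom M (τ.restrictScalars k) ∈ T.fixingSubgroup := by
      rw [IntermediateField.mem_fixingSubgroup_iff]
      intro x hx
      apply Subtype.ext
      have h2 := AlgEquiv.restrictNormal_commutes (τ.restrictScalars k) M x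
      have h3 : τ (algebraMap T N ⟨x, hx⟩) = algebraMap T N ⟨x, hx⟩ := τ.commutes _
      exact h2.trans h3
    rw [hfix] at h1
    exact h1
  let χ : (N ≃ₐ[T] N) →* E := MonoidHom.mk'
    (fun τ => (γ (τ.restrictScalars k)).1.1.left i) (fun τ τ' => by
      have h1 : (τ * τ').restrictScalars k = τ.restrictScalars k * τ'.restrictScalars k := rfl
      rw [h1, map_mul, Subgroup.coe_mul, Prod.fst_mul, wr_mul_left]
      have h2 := hres τ
      rw [hψ₀] at h2
      have h3 : (γ (τ.restrictScalars k)).1.1.right⁻¹ i = i := by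
        rw [Equiv.Perm.inv_eq_iff_eq]
        exact h2.symm
      rw [h3])
  have hχα : ∀ τ : N ≃ₐ[T] N, α (χ τ) = symProj α n (γ (τ.restrictScalars k)) := fun τ =>
    (γ (τ.restrictScalars k)).2 i
  have hχ : Function.Surjective χ := by
    intro g
    let x : SymEP α n := ⟨(⟨fun _ => g, 1⟩, α g), fun i => rfl⟩
    have hker : γ.symm x ∈ ψ₀.ker := by
      rw [MonoidHom.mem_ker, hψ₀, MulEquiv.apply_symm_apply]
    have hfixM : ∀ y : M, (γ.symm x) (y : N) = y := by
      intro y
      have := y.2
      exact this ⟨_, hker⟩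
    let τ : N ≃ₐ[T] N := AlgEquiv.ofRingEquiv (f := (γ.symm x).toRingEquiv) (fun y => hfixM y.1)
    refine ⟨τ, ?_⟩
    have h5 : τ.restrictScalars k = γ.symm x := by
      ext y
      rfl
    change (γ (τ.restrictScalars k)).1.1.left i = g
    rw [h5, MulEquiv.apply_symm_apply]
  let F := IntermediateField.fixedField χ.ker
  have hLF : ∀ x : L, algebraMap L N x ∈ F := by
    rintro x ⟨τ, hτ⟩
    change τ (algebraMap L N x) = _
    have h1 := hγ (τ.restrictScalars k) x
    rw [← hχα, hτ, map_one] at h1
    exact h1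
  let aLF : Algebra L F := ((algebraMap L N).codRestrict F hLF).toAlgebra
  let aKT : Algebra K T := inferInstance
  let aKF : Algebra K F := ((algebraMap T F).comp (algebraMap K T)).toAlgebra
  have hT1 : IsScalarTower K T F := IsScalarTower.of_algebraMap_eq fun x => rfl
  have hKTN : ∀ x : K, algebraMap T N (algebraMap K T x) = algebraMap K N x := by
    intro x
    rw [IsScalarTower.algebraMap_apply K k N]
    rfl
  have hT2 : IsScalarTower K L F := IsScalarTower.of_algebraMap_eq fun x => by
    apply Subtype.ext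
    change algebraMap T N (algebraMap K T x) = algebraMap L N (algebraMap K L x)
    rw [hKTN, ← IsScalarTower.algebraMap_apply K L N]
  have hgalF : IsGalois T F := IsGalois.of_fixedField_normal_subgroup χ.ker
  have hker : (AlgEquiv.restrictNormalHom (F := T) (K₁ := N) F).ker = χ.ker := by
    ext σ
    rw [MonoidHom.mem_ker]
    constructor
    · intro h
      have h1 : σ ∈ F.fixingSubgroup := by
        rw [IntermediateField.mem_fixingSubgroup_iff]
        intro x hx
        have h2 := AlgEquiv.restrictNormal_commutes σ F (⟨x, hx⟩ : F)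
        have h3 : σ.restrictNormal F = 1 := h
        rw [h3] at h2
        exact h2.symm
      rw [IntermediateField.fixingSubgroup_fixedField] at h1
      exact h1
    · intro h
      apply AlgEquiv.ext
      intro x
      apply Subtype.ext
      have h1 := AlgEquiv.restrictNormal_commutes σ F x
      exact h1.trans (x.2 ⟨σ, h⟩)
  obtain ⟨e, he⟩ := exists_equiv_of_ker (AlgEquiv.restrictNormalHom (F := T) (K₁ := N) F)
    χ (AlgEquiv.restrictNormalHom_surjective N) hχ hker
  refine ⟨F, inferInstance, inferInstance, aLF, aKF, hT1, hT2, inferInstance, hgalF, e, ?_, ?_⟩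
  · intro σ' x
    obtain ⟨σ, rfl⟩ := AlgEquiv.restrictNormalHom_surjective (F := T) (K₁ := F) N σ'
    rw [he]
    apply Subtype.ext
    have h1 := AlgEquiv.restrictNormal_commutes σ F (algebraMap L F x)
    refine h1.trans ?_
    change σ (algebraMap L N x) = algebraMap L N (α (χ σ) x)
    rw [hχα]
    exact hγ (σ.restrictScalars k) x
  · intro hr y hy
    have hT3 : IsScalarTower L F N := IsScalarTower.of_algebraMap_eq fun x => rfl
    have h1 : IsAlgebraic L (y : N) := hy.algebraMap (A := N)
    obtain ⟨z, hz⟩ := hreg hr _ h1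
    exact ⟨z, Subtype.ext hz⟩

end degn

end Pool.Agent.H391R2.T4
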