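import Mathlib
import Pool.Agent.H391R2.T4.DegN
import Pool.Agent.H33R2.V3
import Pool.Agent.H880R2.Hilb.E1
import Pool.Agent.H793R2.HilbFin
import Pool.Agent.H298R2.Kuyk

set_option autoImplicit false

namespace Pool.Agent.H391R2.T4

set_option linter.unusedSectionVars false

/-- Weakly solvable finite embedding problems. -/
def WeakSol (K L E : Type) [Field K] [Field L] [Algebra K L] [Normal K L] [Group E]
    (α : E →* (L ≃ₐ[K] L)) : Prop :=
  ∃ (L' : Type) (_ : Field L') (_ : Algebra K L') (_ : FiniteDimensional K L')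
      (_ : IsGalois K L') (_ : Algebra L L') (_ : IsScalarTower K L L')
      (s : (L' ≃ₐ[K] L') →* E), ∀ ρ, α (s ρ) = ρ.restrictNormal L

section hil

variable (K L E : Type) [Field K] [CharZero K] [Field L] [Algebra K L]
    [FiniteDimensional K L] [IsGalois K L] [Group E] [Finite E]
    (α : E →* (L ≃ₐ[K] L))

theorem weakSol_of_split (s : (L ≃ₐ[K] L) →* E) (hs : ∀ ρ, α (s ρ) = ρ) : WeakSol K L E α := by
  refine ⟨L, inferInstance, inferInstance, inferInstance, inferInstance, inferInstance,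
    inferInstance, s, fun ρ => ?_⟩
  rw [hs]
  apply AlgEquiv.ext
  intro x
  have h1 := AlgEquiv.restrictNormal_commutes ρ L x
  exact h1.symm

theorem reg_all (hw : WeakSol K L E α) : ∃ n₀ : ℕ, ∀ n ≥ n₀,
    SolOver K L (SymEP α n) (symProj α n) (RatFunc K) True ∧
    ∃ (i : Fin n) (M : Type) (_ : Field M) (_ : Algebra (RatFunc K) M)
      (_ : IsGalois (RatFunc K) M)
      (ψ : (M ≃ₐ[RatFunc K] M) ≃* Equiv.Perm (Fin n)) (_ : Algebra K M)
      (_ : IsScalarTower K (RatFunc K) M),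
      SolOver K L E α (IntermediateField.fixedField
        ((MulAction.stabilizer (Equiv.Perm (Fin n)) i).comap ψ.toMonoidHom)) True := by
  obtain ⟨n₀, hn₀⟩ := reg_sym K L E α hw
  refine ⟨n₀, fun n hn => ?_⟩
  obtain ⟨hn3, hreg⟩ := hn₀ n hn
  have h1 := (regSol_iff K L (SymEP α n) (symProj α n)).1 hreg
  exact ⟨h1, ⟨0, by omega⟩, sym_degree α n ⟨0, by omega⟩ True h1⟩

instance finite_sym (n : ℕ) : Finite (SymEP α n) := by
  have h1 : Finite (Wr E n) := finite_wr E n
  have h2 : Finite (L ≃ₐ[K] L) := inferInstance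
  exact inferInstance

theorem hil_all (hK : HilbField K) (hw : WeakSol K L E α) : ∃ n₀ : ℕ, ∀ n ≥ n₀,
    SolOver K L (SymEP α n) (symProj α n) K False ∧
    ∃ (i : Fin n) (M : Type) (_ : Field M) (_ : Algebra K M)
      (_ : IsGalois K M)
      (ψ : (M ≃ₐ[K] M) ≃* Equiv.Perm (Fin n)),
      SolOver K L E α (IntermediateField.fixedField
        ((MulAction.stabilizer (Equiv.Perm (Fin n)) i).comap ψ.toMonoidHom)) False := by
  obtain ⟨n₀, hn₀⟩ := reg_sym K L E α hw
  refine ⟨n₀, fun n hn => ?_⟩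
  obtain ⟨hn3, F, i1, i2, i3, i4, i5, i6, i7, i8, γ, hγ, -⟩ := hn₀ n hn
  obtain ⟨F', j1, j2, j3, j4, j5, j6, γ', hγ'⟩ := H33.hilbert_spec K hK L (SymEP α n)
    (symProj α n) ⟨F, i1, i2, i3, i4, i5, i6, i7, i8, γ, hγ⟩
  have h1 : SolOver K L (SymEP α n) (symProj α n) K False := by
    refine ⟨F', j1, j2, j3, j2, inferInstance, j4, j5, j6, γ', ?_, fun h => h.elim⟩
    intro σ x
    rw [hγ', AlgEquiv.restrictNormal_commutes]
  refine ⟨h1, ⟨0, by omega⟩, ?_⟩
  obtain ⟨M, a1, a2, a3, ψ, a4, a5, h2⟩ := sym_degree α n ⟨0, by omega⟩ False h1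
  have h3 : a4 = a2 := Algebra.algebra_ext a4 a2 (fun x => by
    have h4 := @IsScalarTower.algebraMap_apply K K M _ _ _ _ a2 a4 a5 x
    exact h4)
  subst h3
  exact ⟨M, a1, a4, a3, ψ, h2⟩

end hil

end Pool.Agent.H391R2.T4
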