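import Mathlib
import Pool.Agent.H391R2.T4.Hil

set_option autoImplicit false

namespace Pool.Agent.H391R2.T4

set_option linter.unusedSectionVars false

theorem hilb_rat : HilbField ℚ := Pool.Agent.H880R2.Hilb.taskE1

theorem normal_closure (K : Type) [Field K] : Normal K (AlgebraicClosure K) := inferInstance

theorem normal_rat : Normal ℚ (AlgebraicClosure ℚ) := by
  have h := normal_closure ℚ
  have e : (AlgebraicClosure.instAlgebra ℚ : Algebra ℚ (AlgebraicClosure ℚ)) =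
      DivisionRing.toRatAlgebra := Subsingleton.elim _ _
  rwa [e] at h

theorem hilb_numberField (K : Type) [Field K] [NumberField K] : HilbField K :=
  Pool.Agent.H793R2.HilbFin.taskE2 ℚ K hilb_rat

section comm

variable {K Ω : Type} [Field K] [Field Ω] [Algebra K Ω] [Normal K Ω]

/-- Commutativity can be tested on lifts. -/
theorem comm_of_lift (M : IntermediateField K Ω) [Normal K M]
    (h : ∀ (σ τ : Ω ≃ₐ[K] Ω), ∀ x ∈ M, σ (τ x) = τ (σ x)) (σ τ : M ≃ₐ[K] M) :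
    σ * τ = τ * σ := by
  apply AlgEquiv.ext
  intro x
  apply Subtype.ext
  have h1 := h (σ.liftNormal Ω) (τ.liftNormal Ω) x x.2
  have h2 : ∀ (ρ : M ≃ₐ[K] M) (y : M), (ρ.liftNormal Ω) (y : Ω) = (ρ y : Ω) := fun ρ y =>
    AlgEquiv.liftNormal_commutes ρ Ω y
  rw [h2, h2, h2, h2] at h1
  exact h1

end comm

section ab

theorem inst_change (F : Type) [Field F] (a b : Algebra ℚ F) :
    (@IsGalois ℚ _ F _ a ∧ ∀ σ τ : @AlgEquiv ℚ F F _ _ _ a a, σ * τ = τ * σ) ↔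
    (@IsGalois ℚ _ F _ b ∧ ∀ σ τ : @AlgEquiv ℚ F F _ _ _ b b, σ * τ = τ * σ) := by
  have h : a = b := Subsingleton.elim a b
  subst h
  exact Iff.rfl

theorem gen_spec {k Ω : Type} [Field k] [CharZero k] [Field Ω] [Algebra k Ω] [Normal k Ω]
    (hk : HilbField k) (E : IntermediateField k Ω)
    (hE : E = sSup {F : IntermediateField k Ω |
        IsGalois k F ∧ ∀ σ τ : F ≃ₐ[k] F, σ * τ = τ * σ}) :
    HilbField E := by
  have hn : Normal k E := by
    rw [hE, sSup_eq_iSup']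
    have h0 : ∀ i : {F : IntermediateField k Ω |
        IsGalois k F ∧ ∀ σ τ : F ≃ₐ[k] F, σ * τ = τ * σ},
        Normal k (i : IntermediateField k Ω) := fun i =>
      i.2.1.to_normal
    exact IntermediateField.normal_iSup k Ω (t := fun i :
      {F : IntermediateField k Ω |
        IsGalois k F ∧ ∀ σ τ : F ≃ₐ[k] F, σ * τ = τ * σ} =>
        (i : IntermediateField k Ω))
  have hg : IsGalois k E := ⟨⟩
  refine Pool.Agent.H298R2.Kuyk.taskK k E (comm_of_lift E ?_) hk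
  intro σ τ x hx
  have h1 : E ≤ eqF ((σ : Ω →ₐ[k] Ω).comp (τ : Ω →ₐ[k] Ω))
      ((τ : Ω →ₐ[k] Ω).comp (σ : Ω →ₐ[k] Ω)) := by
    rw [hE]
    apply sSup_le
    rintro F ⟨hF, hab⟩ z hz
    rw [mem_eqF]
    change σ (τ z) = τ (σ z)
    have h2 : ∀ (ρ : Ω ≃ₐ[k] Ω) (y : F),
        ρ (y : Ω) = (ρ.restrictNormal F y : Ω) := fun ρ y =>
      (AlgEquiv.restrictNormal_commutes ρ F y).symm
    have h3 := hab (σ.restrictNormal F) (τ.restrictNormal F)
    have h4 := congrArg (fun f : F ≃ₐ[k] F => (f ⟨z, hz⟩ : Ω)) h3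
    have h5 : τ z = (τ.restrictNormal F ⟨z, hz⟩ : Ω) := h2 τ ⟨z, hz⟩
    have h6 : σ z = (σ.restrictNormal F ⟨z, hz⟩ : Ω) := h2 σ ⟨z, hz⟩
    rw [h5, h6, h2, h2]
    exact h4
  exact h1 hx

theorem qab_spec (E : IntermediateField ℚ (AlgebraicClosure ℚ))
    (hE : E = sSup {F : IntermediateField ℚ (AlgebraicClosure ℚ) |
        IsGalois ℚ F ∧ ∀ σ τ : F ≃ₐ[ℚ] F, σ * τ = τ * σ}) :
    HilbField E := by
  have hnr := normal_rat
  refine gen_spec hilb_rat E (hE.trans ?_)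
  congr 1

theorem root_comm {K Ω : Type} [Field K] [CharZero K] [Field Ω] [IsAlgClosed Ω] [Algebra K Ω]
    (σ τ : Ω ≃ₐ[K] Ω) (n : ℕ) (hn : 0 < n) (x : Ω) (hx : x ^ n = 1) :
    σ (τ x) = τ (σ x) := by
  have hc : CharZero Ω := charZero_of_injective_algebraMap (algebraMap K Ω).injective
  have : NeZero n := ⟨hn.ne'⟩
  obtain ⟨ζ, hζ⟩ := HasEnoughRootsOfUnity.exists_primitiveRoot Ω n
  obtain ⟨i, -, hi⟩ := hζ.eq_pow_of_pow_eq_one hx
  have h1 : ∀ ρ : Ω ≃ₐ[K] Ω, ∃ j : ℕ, ρ ζ = ζ ^ j := by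
    intro ρ
    obtain ⟨j, -, hj⟩ := hζ.eq_pow_of_pow_eq_one (ξ := ρ ζ) (by
      rw [← map_pow, hζ.pow_eq_one, map_one])
    exact ⟨j, hj.symm⟩
  obtain ⟨a, ha⟩ := h1 σ
  obtain ⟨b, hb⟩ := h1 τ
  rw [← hi]
  simp only [map_pow, ha, hb]
  congr 1
  rw [← pow_mul, ← pow_mul, mul_comm]

theorem cyc_spec (K : Type) [Field K] [NumberField K] : HilbField
    (IntermediateField.adjoin K {x : AlgebraicClosure K | ∃ n : ℕ, 0 < n ∧ x ^ n = 1}) := by
  set M := IntermediateField.adjoin K {x : AlgebraicClosure K | ∃ n : ℕ, 0 < n ∧ x ^ n = 1} with hM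
  have hn : Normal K M := by
    rw [IntermediateField.normal_iff_forall_map_le']
    intro σ
    rw [hM, IntermediateField.adjoin_map, IntermediateField.adjoin_le_iff]
    rintro _ ⟨x, ⟨n, hn, hx⟩, rfl⟩
    refine IntermediateField.subset_adjoin _ _ ⟨n, hn, ?_⟩
    change (σ x) ^ n = 1
    rw [← map_pow, hx, map_one]
  have hg : IsGalois K M := ⟨⟩
  refine Pool.Agent.H298R2.Kuyk.taskK K M (comm_of_lift M ?_) (hilb_numberField K)
  intro σ τ x hx
  have h1 : M ≤ eqF ((σ : AlgebraicClosure K →ₐ[K] AlgebraicClosure K).comp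
      (τ : AlgebraicClosure K →ₐ[K] AlgebraicClosure K))
      ((τ : AlgebraicClosure K →ₐ[K] AlgebraicClosure K).comp
      (σ : AlgebraicClosure K →ₐ[K] AlgebraicClosure K)) := by
    rw [hM, IntermediateField.adjoin_le_iff]
    rintro z ⟨n, hn, hz⟩
    exact root_comm σ τ n hn z hz
  exact h1 hx

end ab

end Pool.Agent.H391R2.T4
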