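import Mathlib
import Pool.Prelude.Def_F_b1b78ff3
import Pool.Agent.H391R2.T4.Abl
import Pool.Agent.H391R2.FnD

set_option autoImplicit false

namespace Pool.Agent.H391R2.T4

open Nfff32c05

/-- There are a Galois extension `M` of `T` with an isomorphism `Gal(M/T) = S_n` and a point `i`
such that the embedding problem `α` has a solution (regular if `reg`) over the subfield of `M`
fixed by the stabiliser of `i`, an extension of `T` of degree `n`. -/
def SolDeg (K L E : Type) [Field K] [Field L] [Algebra K L] [Group E]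
    (α : E →* (L ≃ₐ[K] L)) (T : Type) [Field T] [Algebra K T] (n : ℕ) (reg : Prop) : Prop :=
  ∃ (M : Type) (_ : Field M) (_ : Algebra T M) (_ : IsGalois T M)
    (ψ : (M ≃ₐ[T] M) ≃* Equiv.Perm (Fin n)) (i : Fin n)
    (_ : Algebra K M) (_ : IsScalarTower K T M),
    SolOver K L E α (IntermediateField.fixedField
      ((MulAction.stabilizer (Equiv.Perm (Fin n)) i).comap ψ.toMonoidHom)) reg

/-- There are a Galois extension `M` of `K` with an isomorphism `Gal(M/K) = S_n` and a point `i`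
such that `G` is realizable over the subfield of `M` fixed by the stabiliser of `i`. -/
def DegReal (K G : Type) [Field K] [Group G] (n : ℕ) : Prop :=
  ∃ (M : Type) (_ : Field M) (_ : Algebra K M) (_ : IsGalois K M)
    (ψ : (M ≃ₐ[K] M) ≃* Equiv.Perm (Fin n)) (i : Fin n),
    IsRealizable (IntermediateField.fixedField
      ((MulAction.stabilizer (Equiv.Perm (Fin n)) i).comap ψ.toMonoidHom)) G

/-- `G` is the group of a finite Galois extension of `K(t)` in which `K` is algebraically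
closed. -/
def RegReal (K G : Type) [Field K] [Group G] : Prop :=
  SolOver K K G 1 (RatFunc K) True

section fin

variable (K L E : Type) [Field K] [CharZero K] [Field L] [Algebra K L]
    [FiniteDimensional K L] [IsGalois K L] [Group E] [Finite E]
    (α : E →* (L ≃ₐ[K] L))

theorem reg_fin (hw : WeakSol K L E α) : ∃ n₀ : ℕ, ∀ n ≥ n₀,
    SolOver K L (SymEP α n) (symProj α n) (RatFunc K) True ∧
    SolDeg K L E α (RatFunc K) n True := by
  obtain ⟨n₀, hn₀⟩ := reg_all K L E α hw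
  refine ⟨n₀, fun n hn => ?_⟩
  obtain ⟨h1, i, M, a1, a2, a3, ψ, a4, a5, h2⟩ := hn₀ n hn
  exact ⟨h1, M, a1, a2, a3, ψ, i, a4, a5, h2⟩

theorem hil_fin (hK : HilbField K) (hw : WeakSol K L E α) : ∃ n₀ : ℕ, ∀ n ≥ n₀,
    SolOver K L (SymEP α n) (symProj α n) K False ∧
    SolDeg K L E α K n False := by
  obtain ⟨n₀, hn₀⟩ := hil_all K L E α hK hw
  refine ⟨n₀, fun n hn => ?_⟩
  obtain ⟨h1, i, M, a1, a2, a3, ψ, h2⟩ := hn₀ n hn
  exact ⟨h1, M, a1, a2, a3, ψ, i, a2, inferInstance, h2⟩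

end fin

/-- Embedding problems with kernel a wreath product with action. -/
theorem hil_eg (K L G : Type) [Field K] [CharZero K] [Field L] [Algebra K L]
    [FiniteDimensional K L] [IsGalois K L] [Group G] [Finite G] (hK : HilbField K)
    (φ : (L ≃ₐ[K] L) →* MulAut G) (n : ℕ)
    (h : RegSol K L (EG φ n) SemidirectProduct.rightHom) :
    ∃ (F : Type) (_ : Field F) (_ : Algebra K F) (_ : Algebra L F)
      (_ : IsScalarTower K L F) (_ : FiniteDimensional K F) (_ : IsGalois K F)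
      (γ : (F ≃ₐ[K] F) ≃* EG φ n),
      ∀ (σ : F ≃ₐ[K] F) (x : L),
        σ (algebraMap L F x) = algebraMap L F ((γ σ).right x) := by
  obtain ⟨F, i1, i2, i3, i4, i5, i6, i7, i8, γ, hγ, -⟩ := h
  have hf1 : Finite (Wr G n) := finite_wr G n
  have hf2 : Finite (L ≃ₐ[K] L) := inferInstance
  have hf3 : Finite (EG φ n) := Finite.of_equiv _ SemidirectProduct.equivProd.symm
  obtain ⟨F', j1, j2, j3, j4, j5, j6, γ', hγ'⟩ := H33.hilbert_spec K hK L (EG φ n)
    SemidirectProduct.rightHom ⟨F, i1, i2, i3, i4, i5, i6, i7, i8, γ, hγ⟩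
  refine ⟨F', j1, j2, j3, j4, j5, j6, γ', ?_⟩
  intro σ x
  change _ = algebraMap L F' ((SemidirectProduct.rightHom (γ' σ)) x)
  rw [hγ', AlgEquiv.restrictNormal_commutes]

/-- Wreath products over `ℚ`. -/
theorem rat_fin (G : Type) [Group G] [Finite G] :
    (∃ n₀ : ℕ, ∀ n ≥ n₀, RegReal ℚ (Wr G n) ∧
      IsRealizable ℚ (Wr G n) ∧ DegReal ℚ G n) ∧
    ∀ (L : Type) [Field L] [Algebra ℚ L] [FiniteDimensional ℚ L] [IsGalois ℚ L]
      (φ : (L ≃ₐ[ℚ] L) →* MulAut G), ∃ n₀ : ℕ, ∀ n ≥ n₀,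
        SolOver ℚ L (Wr G n ⋊[wrAct φ n] (L ≃ₐ[ℚ] L)) SemidirectProduct.rightHom ℚ False := by
  refine ⟨?_, ?_⟩
  · obtain ⟨n₀, hn₀⟩ := reg_wreath ℚ ℚ G 1
    refine ⟨n₀, fun n hn => ?_⟩
    obtain ⟨hn3, h⟩ := hn₀ n hn
    have hsub : ∀ a b : (ℚ ≃ₐ[ℚ] ℚ), a = b := fun a b => Subsingleton.elim a b
    -- the group with trivial top
    let e : EG (1 : (ℚ ≃ₐ[ℚ] ℚ) →* MulAut G) n ≃* Wr G n :=
      { toFun := fun z => z.left
        invFun := fun x => ⟨x, 1⟩
        left_inv := fun z => by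
          apply SemidirectProduct.ext
          · rfl
          · exact hsub _ _
        right_inv := fun x => rfl
        map_mul' := fun a b => by
          rw [eg_mul_left]
          congr 1 }
    obtain ⟨F', j1, j2, j3, j4, j5, j6, γ', hγ'⟩ := hil_eg ℚ ℚ G hilb_rat 1 n h
    have h23 : j3 = j2 := Subsingleton.elim _ _
    subst h23
    obtain ⟨F, i1, i2, i3, i4, i5, i6, i7, i8, γ, hγ, hr⟩ := h
    refine ⟨⟨F, i1, i2, i3, i4, i5, i6, i7, i8, γ.trans e, ?_, fun _ => hr⟩, ?_, ?_⟩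
    · intro σ x
      rw [hγ]
      congr 1
      have h1 : (SemidirectProduct.rightHom (γ σ) : ℚ ≃ₐ[ℚ] ℚ) = 1 := hsub _ _
      rw [h1]
      rfl
    · exact isRealizable_of F' (γ'.trans e).symm
    · obtain ⟨M, k1, k2, k3, ψ, h⟩ := number_field hn3 ⊤ (fun _ _ => trivial) F'
        (Subgroup.topEquiv.trans (γ'.trans e).symm) ⟨0, by omega⟩
      exact ⟨M, k1, k2, k3, ψ, ⟨0, by omega⟩, h⟩
  · intro L _ _ _ _ φ
    obtain ⟨n₀, hn₀⟩ := reg_wreath ℚ L G φ
    refine ⟨n₀, fun n hn => ?_⟩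
    obtain ⟨F', j1, j2, j3, j4, j5, j6, γ', hγ'⟩ := hil_eg ℚ L G hilb_rat φ n (hn₀ n hn).2
    exact ⟨F', j1, j2, j3, j2, inferInstance, j4, j5, j6, γ', hγ', fun h => h.elim⟩

end Pool.Agent.H391R2.T4
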